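import Mathlib

section

/-! The comparison functions `Phi` and three small combinatorial lemmas. -/

namespace Pool.Agent.MP_94a669_co

open Finset

/-- `Phi N K e M` is the iterated truncated sum with step `N`. -/
def Phi (N K : ℕ) : ℕ → ℕ → ℕ
  | 0, M => M
  | e + 1, M => ∑ x ∈ range K, Phi N K e (M - (x + 1) * N)

theorem Phi_zero (N K e : ℕ) : Phi N K e 0 = 0 := by
  induction e with
  | zero => rfl
  | succ e ih => simp [Phi, ih]

theorem Phi_mono (N K e : ℕ) : ∀ {M M' : ℕ}, M ≤ M' → Phi N K e M ≤ Phi N K e M' := by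
  induction e with
  | zero => exact fun h => h
  | succ e ih => exact fun h => sum_le_sum fun x _ => ih (Nat.sub_le_sub_right h _)

theorem Phi_comp {N K e₁ M : ℕ} (I : Finset ℕ) (m : ℕ → ℕ)
    (h : ∀ a, Phi N K e₁ (M - a) ≤ ∑ x ∈ I, (m x - a)) (e₂ : ℕ) :
    ∀ a, Phi N K (e₁ + e₂) (M - a) ≤ ∑ x ∈ I, Phi N K e₂ (m x - a) := by
  induction e₂ with
  | zero => exact h
  | succ e ih =>
    intro a
    show ∑ y ∈ range K, Phi N K (e₁ + e) (M - a - (y + 1) * N) ≤
      ∑ x ∈ I, ∑ y ∈ range K, Phi N K e (m x - a - (y + 1) * N)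
    rw [sum_comm]
    refine sum_le_sum fun y _ => ?_
    simp only [Nat.sub_sub]
    exact ih _

theorem sum_choose (q e : ℕ) : ∑ y ∈ range q, y.choose e = q.choose (e + 1) := by
  induction q with
  | zero => simp
  | succ q ih => rw [sum_range_succ, ih, Nat.choose_succ_succ, add_comm]

theorem Phi_ge (N K r e : ℕ) : ∀ q, q ≤ K →
    N * q.choose (e + 1) + r * q.choose e ≤ Phi N K e (q * N + r) := by
  induction e with
  | zero => intro q _; simp [Phi, mul_comm]
  | succ e ih =>
    intro q hq
    have h1 : ∑ x ∈ range q, Phi N K e (q * N + r - (x + 1) * N) ≤ Phi N K (e + 1) (q * N + r) :=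
      sum_le_sum_of_subset (range_subset_range.2 hq)
    refine le_trans ?_ h1
    rw [← sum_choose q (e + 1), ← sum_choose q e, mul_sum, mul_sum, ← sum_add_distrib,
      ← sum_range_reflect]
    refine sum_le_sum fun x hx => ?_
    have hx' := mem_range.1 hx
    have e1 : q * N + r - (x + 1) * N = (q - 1 - x) * N + r := by
      obtain ⟨y, rfl⟩ : ∃ y, q = y + (x + 1) := ⟨q - (x + 1), by omega⟩
      rw [show y + (x + 1) - 1 - x = y by omega, add_mul]
      omega
    rw [e1]
    exact ih _ (by omega)

/-- Greedy choice of distinct representatives. -/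
theorem exists_reps {β : Type} [Nonempty β] (A : ℕ → Finset β) (C : ℕ)
    (h : ∀ x < C, x < (A x).card) :
    ∃ f : ℕ → β, (∀ x < C, ∀ y < C, f x = f y → x = y) ∧ ∀ x < C, f x ∈ A x := by
  classical
  induction C with
  | zero => exact ⟨fun _ => Classical.arbitrary β, by simp, by simp⟩
  | succ C ih =>
    obtain ⟨f, f1, f2⟩ := ih fun x hx => h x (by omega)
    have h1 : ((range C).image f).card < (A C).card :=
      lt_of_le_of_lt (card_image_le.trans (card_range C).le) (h C (by omega))
    obtain ⟨b, hb, hb'⟩ := exists_mem_notMem_of_card_lt_card h1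
    have hb2 : ∀ x < C, f x ≠ b := fun x hx e => hb' (mem_image.2 ⟨x, mem_range.2 hx, e⟩)
    refine ⟨fun x => if x = C then b else f x, fun x hx y hy e => ?_, fun x hx => ?_⟩
    · by_cases e1 : x = C <;> by_cases e2 : y = C
      · rw [e1, e2]
      · simp only [e1, e2, if_true, if_false] at e
        exact absurd e.symm (hb2 y (by omega))
      · simp only [e1, e2, if_true, if_false] at e
        exact absurd e (hb2 x (by omega))
      · simp only [e1, e2, if_false] at e
        exact f1 x (by omega) y (by omega) e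
    · by_cases e1 : x = C
      · simp only [e1, if_true]
        exact hb
      · simp only [e1, if_false]
        exact f2 x (by omega)

/-- Removing the `a` largest values. -/
theorem exists_trim {β : Type} (c : β → ℕ) (S : Finset β) (a : ℕ) :
    ∃ S' ⊆ S, S'.card = S.card - a ∧
      ∀ x, (S'.filter fun s => x < c s).card = (S.filter fun s => x < c s).card - a := by
  classical
  induction a with
  | zero => exact ⟨S, Subset.refl _, rfl, fun _ => rfl⟩
  | succ a ih =>
    obtain ⟨S', h1, h2, h3⟩ := ih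
    rcases S'.eq_empty_or_nonempty with rfl | hne
    · refine ⟨∅, h1, ?_, fun x => ?_⟩
      · rw [card_empty] at h2 ⊢
        omega
      · have := h3 x
        rw [filter_empty, card_empty] at this ⊢
        omega
    · obtain ⟨s, hs, hmax⟩ := exists_max_image S' c hne
      refine ⟨S'.erase s, (erase_subset _ _).trans h1, ?_, fun x => ?_⟩
      · rw [card_erase_of_mem hs, h2, Nat.sub_sub]
      · rw [filter_erase, ← Nat.sub_sub, ← h3 x]
        by_cases hx : x < c s
        · exact card_erase_of_mem (mem_filter.2 ⟨hs, hx⟩)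
        · have : (S'.filter fun s => x < c s) = ∅ := by
            rw [filter_eq_empty_iff]
            intro y hy hy'
            exact hx (lt_of_lt_of_le hy' (hmax y hy))
          rw [this]
          simp

theorem sum_eq_sum_levels {β : Type} (c : β → ℕ) (S : Finset β) (C : ℕ) (h : ∀ s ∈ S, c s ≤ C)
    (g : ℕ → β → ℕ) :
    ∑ s ∈ S, ∑ x ∈ range (c s), g x s = ∑ x ∈ range C, ∑ s ∈ S.filter fun s => x < c s, g x s := by
  refine sum_comm' fun s x => ?_
  simp only [mem_range, mem_filter]
  exact ⟨fun h' => ⟨⟨h'.1, h'.2⟩, lt_of_lt_of_le h'.2 (h s h'.1)⟩, fun h' => h'.1⟩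

end Pool.Agent.MP_94a669_co

end

section

/-! Labelled plane trees, ordered copies inside a word, and marked permutations. -/

namespace Pool.Agent.MP_94a669_co

open Finset

/-- Labelled plane rooted trees (the root label is kept outside). -/
inductive PT (α : Type) : Type
  | pt : PT α
  | plant : α → PT α → PT α
  | glue : PT α → PT α → PT α

/-- Number of edges. -/
def PT.size {α : Type} : PT α → ℕ
  | .pt => 0
  | .plant _ t => t.size + 1
  | .glue s t => s.size + t.size

/-- Adjacency of type `τ`. -/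
def ad {V : Type} (R : V → V → Prop) : Bool → V → V → Prop
  | true, v, u => R v u
  | false, v, u => R u v

theorem ad_swap {V : Type} {R : V → V → Prop} {τ : Bool} {v u : V} (h : ad R τ v u) :
    ad R (!τ) u v := by
  cases τ <;> exact h

/-- `l` lists, children before parents, the images of the non-root vertices in a copy rooted
at `v`. -/
def Emb {α V : Type} (R : V → V → Prop) : PT α → Bool → V → List V → Prop
  | .pt, _, _, l => l = []
  | .plant _ t, τ, v, l => ∃ l' u, l = l' ++ [u] ∧ ad R τ v u ∧ Emb R t (!τ) u l'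
  | .glue s t, τ, v, l => ∃ l₁ l₂, l = l₁ ++ l₂ ∧ Emb R s τ v l₁ ∧ Emb R t τ v l₂

variable {α V : Type} {R : V → V → Prop}

theorem Emb.length {t : PT α} : ∀ {τ : Bool} {v : V} {l : List V}, Emb R t τ v l →
    l.length = t.size := by
  induction t with
  | pt => intro τ v l h; rw [show l = [] from h]; rfl
  | plant a t ih =>
    rintro τ v l ⟨l', u, rfl, -, h⟩
    rw [List.length_append, ih h]
    rfl
  | glue s t ih₁ ih₂ =>
    rintro τ v l ⟨l₁, l₂, rfl, h₁, h₂⟩
    rw [List.length_append, ih₁ h₁, ih₂ h₂]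
    rfl

open Classical in
/-- Ordered copies inside the word `w`. -/
noncomputable def EE (R : V → V → Prop) (t : PT α) (τ : Bool) (v : V) (w : List V) :
    Finset (List V) :=
  w.sublists.toFinset.filter (Emb R t τ v)

theorem mem_EE {t : PT α} {τ : Bool} {v : V} {w l : List V} :
    l ∈ EE R t τ v w ↔ l.Sublist w ∧ Emb R t τ v l := by
  simp [EE]

/-- Number of ordered copies inside the word `w`. -/
noncomputable def cnt (R : V → V → Prop) (t : PT α) (τ : Bool) (v : V) (w : List V) : ℕ :=
  (EE R t τ v w).card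

theorem cnt_pt (τ : Bool) (v : V) (w : List V) : 1 ≤ cnt R (.pt : PT α) τ v w :=
  card_pos.2 ⟨[], mem_EE.2 ⟨List.nil_sublist _, rfl⟩⟩

/-- A marked word `v w u r`. -/
structure St (V : Type) : Type where
  /-- first letter -/
  v : V
  /-- letters before the mark -/
  w : List V
  /-- marked letter -/
  u : V
  /-- letters after the mark -/
  r : List V

/-- The underlying word. -/
def St.word (s : St V) : List V := s.v :: (s.w ++ s.u :: s.r)

theorem St.eq_of_length {s s' : St V} (h : s.word = s'.word) (hl : s.w.length = s'.w.length) :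
    s = s' := by
  obtain ⟨v, w, u, r⟩ := s
  obtain ⟨v', w', u', r'⟩ := s'
  simp only [St.word, List.cons.injEq] at h hl
  obtain ⟨h1, h2⟩ := List.append_inj h.2 hl
  simp only [List.cons.injEq] at h2
  rw [h.1, h1, h2.1, h2.2]

theorem St.eq_of_u {s s' : St V} (hn : s.word.Nodup) (h : s.word = s'.word) (hu : s.u = s'.u) :
    s = s' := by
  classical
  refine St.eq_of_length h ?_
  have hn' : s'.word.Nodup := h ▸ hn
  have key : ∀ z : St V, z.word.Nodup → (z.w ++ z.u :: z.r).idxOf z.u = z.w.length := by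
    intro z hz
    have h1 : z.u ∉ z.w := by
      intro hm
      have := (List.nodup_cons.1 hz).2
      exact (List.nodup_append.1 this).2.2 _ hm _ List.mem_cons_self rfl
    rw [List.idxOf_append_of_notMem h1]
    simp
  have h2 : s.w ++ s.u :: s.r = s'.w ++ s'.u :: s'.r := (List.cons.inj h).2
  rw [← key s hn, ← key s' hn', h2, hu]

theorem St.sub_of_lt {s s' : St V} (h : s.word = s'.word) (hl : s.w.length < s'.w.length) :
    (s.w ++ [s.u]).Sublist s'.w := by
  have h2 : (s.w ++ [s.u]) ++ s.r = s'.w ++ s'.u :: s'.r := by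
    rw [List.append_assoc]
    exact (List.cons.inj h).2
  have h3 := congrArg (List.take (s.w ++ [s.u]).length) h2
  rw [List.take_left, List.take_append_of_le_length (by simpa using hl)] at h3
  rw [h3]
  exact List.take_sublist _ _

/-- Exchange the first and the marked letter. -/
def St.swap (s : St V) : St V := ⟨s.u, s.w, s.v, s.r⟩

theorem St.swap_inj {s s' : St V} (h : s.swap = s'.swap) : s = s' := by
  obtain ⟨v, w, u, r⟩ := s
  obtain ⟨v', w', u', r'⟩ := s'
  simp only [St.swap, St.mk.injEq] at h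
  rw [h.1, h.2.1, h.2.2.1, h.2.2.2]

theorem St.swap_perm (s : St V) : s.swap.word.Perm s.word := by
  show (s.u :: (s.w ++ s.v :: s.r)).Perm (s.v :: (s.w ++ s.u :: s.r))
  exact ((List.perm_middle.cons _).trans (List.Perm.swap _ _ _)).trans
    (List.perm_middle.cons _).symm

/-- Move the first `t` letters of `w` behind the mark. -/
def St.shift (t : ℕ) (s : St V) : St V := ⟨s.v, s.w.drop t, s.u, s.w.take t ++ s.r⟩

theorem St.shift_perm (t : ℕ) (s : St V) : (s.shift t).word.Perm s.word := by
  show (s.v :: (s.w.drop t ++ s.u :: (s.w.take t ++ s.r))).Perm (s.v :: (s.w ++ s.u :: s.r))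
  refine List.Perm.cons _ (List.perm_middle.trans (List.Perm.trans ?_ List.perm_middle.symm))
  refine List.Perm.cons _ ?_
  rw [← List.append_assoc]
  refine List.Perm.append_right _ (List.perm_append_comm.trans ?_)
  rw [List.take_append_drop]

/-- The first time at which more than `x` ordered copies have appeared. -/
noncomputable def cut (R : V → V → Prop) (t : PT α) (τ : Bool) (x : ℕ) (v : V) (w : List V) : ℕ :=
  sInf {j | x < cnt R t τ v (w.take j)}

theorem cut_spec {t : PT α} {τ : Bool} {x : ℕ} {v : V} {w : List V} (h : x < cnt R t τ v w) :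
    x < cnt R t τ v (w.take (cut R t τ x v w)) :=
  Nat.sInf_mem (s := {j | x < cnt R t τ v (w.take j)}) ⟨w.length, by simpa using h⟩

theorem cut_le {t : PT α} {τ : Bool} {x j : ℕ} {v : V} {w : List V}
    (h : x < cnt R t τ v (w.take j)) : cut R t τ x v w ≤ j :=
  Nat.sInf_le (s := {j | x < cnt R t τ v (w.take j)}) h

theorem shift_inj_aux {t : PT α} {τ : Bool} {x : ℕ} {s s' : St V} (h : x < cnt R t τ s.v s.w)
    (h' : x < cnt R t τ s'.v s'.w)
    (e : s.shift (cut R t τ x s.v s.w) = s'.shift (cut R t τ x s'.v s'.w))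
    (hle : cut R t τ x s.v s.w ≤ cut R t τ x s'.v s'.w) : s = s' := by
  obtain ⟨v, w, u, r⟩ := s
  obtain ⟨v', w', u', r'⟩ := s'
  simp only [St.shift, St.mk.injEq] at e h h' hle
  obtain ⟨rfl, e2, rfl, e4⟩ := e
  have b1 : cut R t τ x v w ≤ w.length := cut_le (by simpa using h)
  have b2 : cut R t τ x v w' ≤ w'.length := cut_le (by simpa using h')
  have s1 := cut_spec h
  generalize cut R t τ x v w = j at *
  have e5 := congrArg (List.take j) e4
  rw [List.take_append_of_le_length (by simp [b1]), List.take_append_of_le_length (by simp; omega),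
    List.take_take, List.take_take, min_self, min_eq_left hle] at e5
  have b3 : cut R t τ x v w' ≤ j := cut_le (e5 ▸ s1)
  have e6 : cut R t τ x v w' = j := le_antisymm b3 hle
  rw [e6] at e2 e4
  rw [e5] at e4
  have e7 := List.append_cancel_left e4
  have e8 : w = w' := by rw [← List.take_append_drop j w, e5, e2, List.take_append_drop]
  rw [e7, e8]

theorem shift_inj {t : PT α} {τ : Bool} {x : ℕ} {s s' : St V} (h : x < cnt R t τ s.v s.w)
    (h' : x < cnt R t τ s'.v s'.w)
    (e : s.shift (cut R t τ x s.v s.w) = s'.shift (cut R t τ x s'.v s'.w)) : s = s' := by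
  rcases le_total (cut R t τ x s.v s.w) (cut R t τ x s'.v s'.w) with hle | hle
  · exact shift_inj_aux h h' e hle
  · exact (shift_inj_aux h' h e.symm hle).symm

theorem cnt_glue (s t : PT α) (τ : Bool) (v : V) (w : List V) :
    ∑ x ∈ range (cnt R s τ v w), cnt R t τ v (w.drop (cut R s τ x v w)) ≤
      cnt R (.glue s t) τ v w := by
  obtain ⟨f, f1, f2⟩ := exists_reps (fun x => EE R s τ v (w.take (cut R s τ x v w)))
    (cnt R s τ v w) fun x hx => cut_spec hx
  simp only [cnt] at f1 f2 ⊢
  rw [← card_sigma]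
  refine card_le_card_of_injOn (fun p => f p.1 ++ p.2) (fun p hp => ?_) fun p hp p' hp' e => ?_
  · simp only [coe_sigma, Set.mem_sigma_iff, mem_coe, mem_range, mem_EE] at hp ⊢
    have h1 := mem_EE.1 (f2 _ hp.1)
    refine ⟨?_, _, _, rfl, h1.2, hp.2.2⟩
    have := h1.1.append hp.2.1
    rwa [List.take_append_drop] at this
  · simp only [coe_sigma, Set.mem_sigma_iff, mem_coe, mem_range, mem_EE] at hp hp'
    have h1 := mem_EE.1 (f2 _ hp.1)
    have h2 := mem_EE.1 (f2 _ hp'.1)
    obtain ⟨e1, e2⟩ := List.append_inj e (h1.2.length.trans h2.2.length.symm)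
    obtain ⟨x, l⟩ := p
    obtain ⟨x', l'⟩ := p'
    obtain rfl : x = x' := f1 _ hp.1 _ hp'.1 e1
    obtain rfl : l = l' := e2
    rfl

open Classical in
theorem cnt_plant (a : α) (t : PT α) (τ : Bool) (S : Finset (St V))
    (hS : ∀ s ∈ S, s.word.Nodup ∧ ad R τ s.v s.u) (s : St V) :
    ∑ z ∈ S.filter (fun z => z.word = s.word ∧ z.w.length < s.w.length), cnt R t (!τ) z.u z.w ≤
      cnt R (.plant a t) τ s.v s.w := by
  simp only [cnt]
  rw [← card_sigma]
  refine card_le_card_of_injOn (fun p => p.2 ++ [p.1.u]) (fun p hp => ?_) fun p hp p' hp' e => ?_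
  · simp only [coe_sigma, Set.mem_sigma_iff, mem_coe, mem_filter, mem_EE] at hp ⊢
    obtain ⟨⟨h1, h2, h3⟩, h4, h5⟩ := hp
    refine ⟨(h4.append_right _).trans (St.sub_of_lt h2 h3), _, _, rfl, ?_, h5⟩
    rw [← (List.cons.inj h2).1]
    exact (hS _ h1).2
  · simp only [coe_sigma, Set.mem_sigma_iff, mem_coe, mem_filter, mem_EE] at hp hp'
    obtain ⟨e1, e2⟩ := List.append_inj' e rfl
    obtain ⟨z, l⟩ := p
    obtain ⟨z', l'⟩ := p'
    obtain rfl : z = z' :=
      St.eq_of_u (hS _ hp.1.1).1 (hp.1.2.1.trans hp'.1.2.1.symm) (List.cons.inj e2).1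
    obtain rfl : l = l' := e1
    rfl

end Pool.Agent.MP_94a669_co

end

section

/-! The majorisation invariant: every set of marked permutations carries many ordered copies. -/

namespace Pool.Agent.MP_94a669_co

open Finset Nat

variable {α V : Type} {R : V → V → Prop}

open Classical in
/-- Number of later marks of the same word inside `S`. -/
noncomputable def rank (S : Finset (St V)) (z : St V) : ℕ :=
  (S.filter fun s => z.word = s.word ∧ z.w.length < s.w.length).card

theorem rank_lt {S : Finset (St V)} {z z' : St V} (hz' : z' ∈ S) (h : z.word = z'.word)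
    (hl : z.w.length < z'.w.length) : rank S z' < rank S z := by
  classical
  refine card_lt_card ⟨fun s hs => ?_, fun hs => ?_⟩
  · simp only [mem_filter] at hs ⊢
    exact ⟨hs.1, h.trans hs.2.1, hl.trans hs.2.2⟩
  · have := hs (mem_filter.2 ⟨hz', h, hl⟩)
    simp at this

theorem card_low_rank {L : List V} {S : Finset (St V)} (hS : ∀ s ∈ S, s.word.Perm L) (x : ℕ) :
    (S.filter fun z => ¬ x < rank S z).card ≤ (x + 1) * L.length ! := by
  classical
  have h1 : (range (x + 1) ×ˢ L.permutations.toFinset).card ≤ (x + 1) * L.length ! := by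
    rw [card_product, card_range, ← List.length_permutations]
    exact Nat.mul_le_mul_left _ (List.toFinset_card_le _)
  refine le_trans (card_le_card_of_injOn (fun z => (rank S z, z.word)) (fun z hz => ?_)
    fun z hz z' hz' e => ?_) h1
  · simp only [coe_filter, Set.mem_ofPred_eq] at hz
    simp only [coe_product, Set.mem_prod, mem_coe, mem_range, List.mem_toFinset,
      List.mem_permutations]
    exact ⟨by omega, hS z hz.1⟩
  · simp only [coe_filter, Set.mem_ofPred_eq] at hz hz'
    simp only [Prod.mk.injEq] at e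
    rcases lt_trichotomy z.w.length z'.w.length with h | h | h
    · exact absurd e.1 (rank_lt hz'.1 e.2 h).ne'
    · exact St.eq_of_length e.2 h
    · exact absurd e.1 (rank_lt hz.1 e.2.symm h).ne

theorem major {L : List V} (hL : L.Nodup) (K : ℕ) (t : PT α) :
    ∀ (τ : Bool) (S : Finset (St V)), (∀ s ∈ S, s.word.Perm L ∧ ad R τ s.v s.u) →
      Phi L.length ! K t.size S.card ≤ ∑ s ∈ S, cnt R t τ s.v s.w := by
  classical
  induction t with
  | pt =>
    intro τ S _
    show S.card ≤ _
    rw [card_eq_sum_ones]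
    exact sum_le_sum fun s _ => cnt_pt τ s.v s.w
  | plant a t ih =>
    intro τ S hS
    have h1 := fun s => cnt_plant (R := R) a t τ S
      (fun s hs => ⟨(hS s hs).1.nodup_iff.2 hL, (hS s hs).2⟩) s
    refine le_trans ?_ (sum_le_sum fun s _ => h1 s)
    have h2 : ∑ s ∈ S, ∑ z ∈ S.filter (fun z => z.word = s.word ∧ z.w.length < s.w.length),
        cnt R t (!τ) z.u z.w = ∑ z ∈ S, ∑ _x ∈ range (rank S z), cnt R t (!τ) z.u z.w := by
      rw [sum_comm' (t' := S)
        (s' := fun z => S.filter fun s => z.word = s.word ∧ z.w.length < s.w.length)]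
      · refine sum_congr rfl fun z _ => ?_
        rw [sum_const, sum_const, card_range, rank]
      · intro s z
        simp only [mem_filter]
        tauto
    rw [h2, sum_eq_sum_levels (rank S) S (S.card + K)
      (fun s _ => (card_filter_le _ _).trans (Nat.le_add_right _ _))]
    refine le_trans ?_ (sum_le_sum_of_subset (range_subset_range.2 (Nat.le_add_left K S.card)))
    refine sum_le_sum fun x _ => ?_
    have h3 := ih (!τ) ((S.filter fun z => x < rank S z).image St.swap) (by
      intro s hs
      obtain ⟨z, hz, rfl⟩ := mem_image.1 hs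
      have := hS z (mem_filter.1 hz).1
      exact ⟨z.swap_perm.trans this.1, ad_swap this.2⟩)
    rw [Finset.card_image_of_injective _ fun _ _ => St.swap_inj,
      sum_image fun _ _ _ _ => St.swap_inj] at h3
    refine le_trans (Phi_mono _ _ _ ?_) h3
    have h4 := card_low_rank (fun s hs => (hS s hs).1) x
    have h5 := card_filter_add_card_filter_not (s := S) fun z => x < rank S z
    omega
  | glue s t ih₁ ih₂ =>
    intro τ S hS
    refine le_trans ?_ (sum_le_sum fun z _ => cnt_glue s t τ z.v z.w)
    obtain ⟨C, hC⟩ : ∃ C, ∀ z ∈ S, cnt R s τ z.v z.w ≤ C :=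
      ⟨∑ z ∈ S, cnt R s τ z.v z.w, fun z hz =>
        single_le_sum (f := fun z : St V => cnt R s τ z.v z.w) (fun _ _ => Nat.zero_le _) hz⟩
    rw [sum_eq_sum_levels (fun z : St V => cnt R s τ z.v z.w) S C hC]
    have h1 := Phi_comp (N := L.length !) (K := K) (e₁ := s.size) (M := S.card) (range C)
      (fun x => (S.filter fun z => x < cnt R s τ z.v z.w).card) (fun a => ?_) t.size 0
    · refine le_trans h1 (sum_le_sum fun x _ => ?_)
      have hinj : Set.InjOn (fun z : St V => z.shift (cut R s τ x z.v z.w))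
          (S.filter fun z => x < cnt R s τ z.v z.w) := fun z hz z' hz' e =>
        shift_inj (mem_filter.1 hz).2 (mem_filter.1 hz').2 e
      have h3 := ih₂ τ ((S.filter fun z => x < cnt R s τ z.v z.w).image
        fun z => z.shift (cut R s τ x z.v z.w)) (by
        intro y hy
        obtain ⟨z, hz, rfl⟩ := mem_image.1 hy
        have := hS z (mem_filter.1 hz).1
        exact ⟨(z.shift_perm _).trans this.1, this.2⟩)
      rw [Finset.card_image_of_injOn hinj, sum_image hinj] at h3
      exact h3
    · obtain ⟨S', g1, g2, g3⟩ := exists_trim (fun z : St V => cnt R s τ z.v z.w) S a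
      have h2 := ih₁ τ S' fun z hz => hS z (g1 hz)
      rw [g2] at h2
      refine h2.trans (le_of_eq ?_)
      have h3 := sum_eq_sum_levels (fun z : St V => cnt R s τ z.v z.w) S' C
        (fun z hz => hC z (g1 hz)) fun _ _ => 1
      simp only [sum_const, card_range, smul_eq_mul, mul_one] at h3
      rw [h3]
      exact sum_congr rfl fun x _ => g3 x

end Pool.Agent.MP_94a669_co

end

section

/-! Every antidirected tree is described by a labelled plane tree plus a leaf at the root. -/

namespace Pool.Agent.MP_94a669_co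

open Finset

variable {α : Type}

/-- Non-root labels, children before parents. -/
def PT.verts : PT α → List α
  | .pt => []
  | .plant u t => t.verts ++ [u]
  | .glue s t => s.verts ++ t.verts

theorem PT.length_verts (t : PT α) : t.verts.length = t.size := by
  induction t with
  | pt => rfl
  | plant u t ih => simp [PT.verts, PT.size, ih]
  | glue s t ih₁ ih₂ => simp [PT.verts, PT.size, ih₁, ih₂]

/-- Parent-child pairs. -/
def Edge : PT α → α → α → α → Prop
  | .pt, _, _, _ => False
  | .plant u t, a, x, y => (x = a ∧ y = u) ∨ Edge t u x y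
  | .glue s t, a, x, y => Edge s a x y ∨ Edge t a x y

/-- Types alternate along the edges. -/
def Alt (ty : α → Bool) : PT α → α → Prop
  | .pt, _ => True
  | .plant u t, a => ty u = !ty a ∧ Alt ty t u
  | .glue s t, a => Alt ty s a ∧ Alt ty t a

theorem Edge.ad {V : Type} {R : V → V → Prop} {ty : α → Bool} {f : α → V} {x y : α} {t : PT α} :
    ∀ {a : α}, Alt ty t a → Emb R t (ty a) (f a) (t.verts.map f) → Edge t a x y →
      ad R (ty x) (f x) (f y) := by
  induction t with
  | pt => exact fun _ _ h => h.elim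
  | plant u t ih =>
    rintro a ⟨h1, h2⟩ ⟨l', u', e, h3, h4⟩ h
    rw [PT.verts, List.map_append] at e
    obtain ⟨e1, e2⟩ := List.append_inj' e rfl
    obtain rfl : f u = u' := (List.cons.inj e2).1
    rcases h with ⟨rfl, rfl⟩ | h
    · exact h3
    · rw [← h1, ← e1] at h4
      exact ih h2 h4 h
  | glue s t ih₁ ih₂ =>
    rintro a ⟨h1, h2⟩ ⟨l₁, l₂, e, h3, h4⟩ h
    rw [PT.verts, List.map_append] at e
    obtain ⟨e1, e2⟩ := List.append_inj e (by rw [List.length_map, PT.length_verts, h3.length])
    rcases h with h | h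
    · exact ih₁ h1 (e1 ▸ h3) h
    · exact ih₂ h2 (e2 ▸ h4) h

theorem add_leaf {ty : α → Bool} {y z : α} (hz : ty z = !ty y) (t : PT α) :
    ∀ {a : α}, Alt ty t a → y ∈ a :: t.verts → ∃ t' : PT α, t'.verts.Perm (z :: t.verts) ∧
      Alt ty t' a ∧ (∀ b c, Edge t a b c → Edge t' a b c) ∧ Edge t' a y z := by
  have root : ∀ t : PT α, Alt ty t y → ∃ t' : PT α, t'.verts.Perm (z :: t.verts) ∧
      Alt ty t' y ∧ (∀ b c, Edge t y b c → Edge t' y b c) ∧ Edge t' y y z := fun t h =>
    ⟨.glue t (.plant z .pt), List.perm_append_comm, ⟨h, hz, trivial⟩, fun _ _ h => Or.inl h,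
      Or.inr (Or.inl ⟨rfl, rfl⟩)⟩
  induction t with
  | pt =>
    intro a h hy
    obtain rfl : y = a := by simpa [PT.verts] using hy
    exact root _ h
  | plant u t ih =>
    intro a h hy
    rcases List.mem_cons.1 hy with rfl | hy
    · exact root _ h
    · obtain ⟨t', g1, g2, g3, g4⟩ := ih h.2 (by
        simp only [PT.verts, List.mem_append, List.mem_cons, List.not_mem_nil] at hy ⊢
        tauto)
      exact ⟨.plant u t', g1.append_right _, ⟨h.1, g2⟩, fun b c h => h.imp_right (g3 b c),
        Or.inr g4⟩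
  | glue s t ih₁ ih₂ =>
    intro a h hy
    rcases List.mem_cons.1 hy with rfl | hy
    · exact root _ h
    · rcases List.mem_append.1 hy with hy | hy
      · obtain ⟨s', g1, g2, g3, g4⟩ := ih₁ h.1 (List.mem_cons_of_mem _ hy)
        exact ⟨.glue s' t, g1.append_right _, ⟨g2, h.2⟩, fun b c h => h.imp_left (g3 b c),
          Or.inl g4⟩
      · obtain ⟨t', g1, g2, g3, g4⟩ := ih₂ h.2 (List.mem_cons_of_mem _ hy)
        exact ⟨.glue s t', (g1.append_left _).trans List.perm_middle, ⟨h.1, g2⟩,
          fun b c h => h.imp_right (g3 b c), Or.inr g4⟩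

variable [DecidableEq α] {T : SimpleGraph α}

/-- `t` rooted at `a` describes the subgraph of `T` induced on `U`. -/
def Rep (T : SimpleGraph α) (ty : α → Bool) (t : PT α) (a : α) (U : Finset α) : Prop :=
  Alt ty t a ∧ (a :: t.verts).Nodup ∧ (∀ x, x ∈ a :: t.verts ↔ x ∈ U) ∧
    ∀ x ∈ U, ∀ y ∈ U, T.Adj x y → Edge t a x y ∨ Edge t a y x

theorem Rep.of_leaf {ty : α → Bool} {t t' : PT α} {a y z : α} {U : Finset α} (h : Rep T ty t a U)
    (hz : z ∉ U) (huniq : ∀ b ∈ U, T.Adj z b → b = y) (g1 : t'.verts.Perm (z :: t.verts))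
    (g2 : Alt ty t' a) (g3 : ∀ b c, Edge t a b c → Edge t' a b c) (g4 : Edge t' a y z) :
    Rep T ty t' a (insert z U) := by
  obtain ⟨-, h2, h3, h4⟩ := h
  have hp : (a :: t'.verts).Perm (z :: a :: t.verts) := (g1.cons a).trans (List.Perm.swap _ _ _)
  refine ⟨g2, hp.nodup_iff.2 (List.nodup_cons.2 ⟨fun h => hz ((h3 z).1 h), h2⟩), fun x => ?_, ?_⟩
  · rw [hp.mem_iff, List.mem_cons, h3, mem_insert]
  · intro b hb c hc hbc
    rcases mem_insert.1 hb with eb | hb' <;> rcases mem_insert.1 hc with ec | hc'
    · exact absurd (eb.trans ec.symm) hbc.ne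
    · rw [huniq c hc' (eb ▸ hbc), eb]
      exact Or.inr g4
    · rw [huniq b hb' (ec ▸ hbc.symm), ec]
      exact Or.inl g4
    · exact (h4 b hb' c hc' hbc).imp (g3 b c) (g3 c b)

/-- Any two vertices of `A` are joined by a walk inside `A`. -/
def Conn (T : SimpleGraph α) (A : Finset α) : Prop :=
  ∀ a ∈ A, ∀ b ∈ A, ∃ p : T.Walk a b, ∀ y ∈ p.support, y ∈ A

theorem uniq_nbr (hT : T.IsAcyclic) {A : Finset α} (hA : Conn T A) {l u : α} (hl : l ∉ A)
    (hu : u ∈ A) (hadj : T.Adj u l) : ∀ a ∈ A, T.Adj l a → a = u := by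
  intro a ha hla
  obtain ⟨p, hp⟩ := hA u hu a ha
  by_contra hne
  have hq : (SimpleGraph.Walk.cons hadj (SimpleGraph.Walk.cons hla .nil)).IsPath := by
    simp [hadj.ne, hla.ne, Ne.symm hne]
  have := (hT.subsingleton_path _ _).elim p.toPath ⟨_, hq⟩
  have hmem : l ∈ (p.toPath : T.Walk u a).support := by
    rw [this]
    simp
  exact hl (hp l (p.support_toPath_subset_support hmem))

theorem Conn.insert {A : Finset α} (hA : Conn T A) {l u : α} (hu : u ∈ A) (hadj : T.Adj u l) :
    Conn T (insert l A) := by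
  have key : ∀ b ∈ A, ∃ p : T.Walk l b, ∀ y ∈ p.support, y ∈ Insert.insert l A := by
    intro b hb
    obtain ⟨p, hp⟩ := hA u hu b hb
    refine ⟨.cons hadj.symm p, fun y hy => ?_⟩
    simp only [SimpleGraph.Walk.support_cons, List.mem_cons] at hy
    rcases hy with rfl | hy
    · simp
    · exact mem_insert_of_mem (hp y hy)
  intro a ha b hb
  rcases mem_insert.1 ha with ea | ha' <;> rcases mem_insert.1 hb with eb | hb'
  · subst ea eb
    exact ⟨.nil, by simp⟩
  · subst ea
    exact key b hb'
  · subst eb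
    obtain ⟨p, hp⟩ := key a ha'
    exact ⟨p.reverse, by simpa using hp⟩
  · obtain ⟨p, hp⟩ := hA a ha' b hb'
    exact ⟨p, fun y hy => mem_insert_of_mem (hp y hy)⟩

omit [DecidableEq α] in
theorem exists_step {A Y : Finset α} (hY : Conn T Y) (hAY : A ⊆ Y) {r : α} (hr : r ∈ A)
    (hlt : A.card < Y.card) : ∃ u ∈ A, ∃ l ∈ Y, l ∉ A ∧ T.Adj u l := by
  obtain ⟨y, hy, hyA⟩ := exists_mem_notMem_of_card_lt_card hlt
  obtain ⟨p, hp⟩ := hY r (hAY hr) y hy
  obtain ⟨d, hd, h1, h2⟩ := p.exists_boundary_dart (A : Set α) hr hyA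
  exact ⟨d.fst, h1, d.snd, hp _ (p.dart_snd_mem_support_of_mem_darts hd), h2, d.adj⟩

theorem grow (hT : T.IsAcyclic) {ty : α → Bool} (hty : ∀ x y, T.Adj x y → ty y = !ty x)
    {Y : Finset α} (hY : Conn T Y) {r : α} (hr : r ∈ Y) (m : ℕ) (hm : m + 1 ≤ Y.card) :
    ∃ A ⊆ Y, r ∈ A ∧ A.card = m + 1 ∧ Conn T A ∧ ∃ t, Rep T ty t r A := by
  induction m with
  | zero =>
    refine ⟨{r}, by simpa, by simp, by simp, ?_, .pt, trivial, by simp [PT.verts],
      by simp [PT.verts], by simp⟩
    intro a ha b hb
    rw [mem_singleton] at ha hb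
    subst ha hb
    exact ⟨.nil, by simp⟩
  | succ m ih =>
    obtain ⟨A, h1, h2, h3, h4, t, ht⟩ := ih (by omega)
    obtain ⟨u, hu, l, hl, hlA, hadj⟩ := exists_step hY h1 h2 (by omega)
    obtain ⟨t', g1, g2, g3, g4⟩ := add_leaf (hty u l hadj) t ht.1 ((ht.2.2.1 u).2 hu)
    exact ⟨insert l A, insert_subset hl h1, mem_insert_of_mem h2,
      by rw [card_insert_of_notMem hlA, h3], h4.insert hu hadj, t',
      ht.of_leaf hlA (uniq_nbr hT h4 hlA hu hadj) g1 g2 g3 g4⟩

theorem exists_map {V : Type} (v : V) (xs : List α) : ∀ ys : List V, xs.Nodup →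
    xs.length = ys.length → ∃ f : α → V, xs.map f = ys := by
  induction xs with
  | nil =>
    intro ys _ h
    exact ⟨fun _ => v, (List.length_eq_zero_iff.1 h.symm).symm⟩
  | cons x xs ih =>
    intro ys hn h
    obtain _ | ⟨y, ys⟩ := ys
    · simp at h
    obtain ⟨f, hf⟩ := ih ys (List.nodup_cons.1 hn).2 (by simpa using h)
    refine ⟨fun a => if a = x then y else f a, ?_⟩
    rw [List.map_cons, if_pos rfl, ← hf]
    congr 1
    refine List.map_congr_left fun a ha => if_neg ?_
    rintro rfl
    exact (List.nodup_cons.1 hn).1 ha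

/-- The description of an antidirected tree with at least one arc. -/
theorem exists_enc [Fintype α] (A : α → α → Prop) (hT : (SimpleGraph.fromRel A).IsTree)
    (hA : ∀ a b c, A a b → ¬ A b c) (k : ℕ) (hk : Fintype.card α = k + 2) :
    ∃ (t : PT α) (τ : Bool) (p : α) (la : List α), t.size = k ∧ la.length = k + 1 ∧
      ∀ (V : Type) (R : V → V → Prop) (v u : V) (l : List V), (v :: (l ++ [u])).Nodup →
        Emb R t τ v l → ad R τ v u → ∃ f : α → V, (Function.Injective f ∧
          ∀ a b, A a b → R (f a) (f b)) ∧ f p = v ∧ la.map f = l ++ [u] := by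
  classical
  obtain ⟨ty, hty⟩ : ∃ ty : α → Bool, ∀ a b, A a b → ty a = true ∧ ty b = false :=
    ⟨fun a => decide (∃ b, A a b), fun a b h =>
      ⟨decide_eq_true ⟨b, h⟩, decide_eq_false fun ⟨c, hc⟩ => hA a b c h hc⟩⟩
  have hty' : ∀ x y, (SimpleGraph.fromRel A).Adj x y → ty y = !ty x := by
    intro x y h
    rcases ((SimpleGraph.fromRel_adj A x y).1 h).2 with h | h
    · rw [(hty _ _ h).1, (hty _ _ h).2]
      rfl
    · rw [(hty _ _ h).1, (hty _ _ h).2]
      rfl
  have hU : Conn (SimpleGraph.fromRel A) univ := fun a _ b _ => by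
    obtain ⟨p⟩ := hT.connected.preconnected a b
    exact ⟨p, by simp⟩
  obtain ⟨r₀⟩ := hT.connected.nonempty
  obtain ⟨B, -, h2, h3, h4, -⟩ := grow hT.isAcyclic hty' hU (mem_univ r₀) k (by simp [hk])
  obtain ⟨p, hp, z, -, hzB, hadj⟩ := exists_step hU (subset_univ B) h2 (by simp [hk, h3])
  obtain ⟨B', g1, g2, g3, -, t, ht⟩ := grow hT.isAcyclic hty' h4 hp k h3.ge
  obtain rfl : B' = B := eq_of_subset_of_card_le g1 (by omega)
  have huniv : insert z B' = univ := by
    apply eq_univ_of_card
    rw [card_insert_of_notMem hzB, h3, hk]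
  have hrep : Rep (SimpleGraph.fromRel A) ty (.glue t (.plant z .pt)) p (insert z B') :=
    ht.of_leaf hzB (uniq_nbr hT.isAcyclic h4 hzB hp hadj) List.perm_append_comm
      ⟨ht.1, hty' _ _ hadj, trivial⟩ (fun _ _ h => Or.inl h) (Or.inr (Or.inl ⟨rfl, rfl⟩))
  rw [huniv] at hrep
  have hsize : t.size = k := by
    have e1 : (p :: t.verts).toFinset = B' := by
      ext x
      rw [List.mem_toFinset, ht.2.2.1]
    have e2 := List.toFinset_card_of_nodup ht.2.1
    rw [e1, h3, List.length_cons, PT.length_verts] at e2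
    omega
  refine ⟨t, ty p, p, (PT.glue t (.plant z .pt)).verts, hsize, ?_, ?_⟩
  · rw [PT.length_verts]
    simp [PT.size, hsize]
  · intro V R v u l hn he hvu
    have he' : Emb R (.glue t (.plant z .pt)) (ty p) v (l ++ [u]) :=
      ⟨l, [u], rfl, he, [], u, rfl, hvu, rfl⟩
    obtain ⟨f, hf⟩ := exists_map v _ (v :: (l ++ [u])) hrep.2.1
      (by rw [List.length_cons, List.length_cons, PT.length_verts, he'.length])
    have hinj := List.inj_on_of_nodup_map (hf ▸ hn)
    rw [List.map_cons] at hf
    obtain ⟨e1, e2⟩ := List.cons.inj hf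
    refine ⟨f, ⟨fun a b h => hinj ((hrep.2.2.1 a).2 (mem_univ a)) ((hrep.2.2.1 b).2 (mem_univ b)) h,
      fun a b h => ?_⟩, e1, e2⟩
    rw [← e1, ← e2] at he'
    have hab : (SimpleGraph.fromRel A).Adj a b :=
      (SimpleGraph.fromRel_adj A a b).2 ⟨fun e => hA a b b h (e ▸ h), Or.inl h⟩
    rcases hrep.2.2.2 a (mem_univ a) b (mem_univ b) hab with g | g
    · have := g.ad hrep.1 he'
      rwa [(hty a b h).1] at this
    · have := g.ad hrep.1 he'
      rwa [(hty a b h).2] at this

end Pool.Agent.MP_94a669_co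

end

section

/-! Double counting over permutations, and the sharp lower bound for the number of copies. -/

namespace Pool.Agent.MP_94a669_co

open Finset Nat

variable {V : Type} [DecidableEq V]

theorem card_sub_aux (l : List V) (j : ℕ) : ∀ M : List V, M.Nodup → M.length = l.length + j →
    l.length ! * (M.permutations.toFinset.filter fun ρ => l.Sublist ρ).card ≤ M.length ! := by
  induction j with
  | zero =>
    intro M _ h
    have : (M.permutations.toFinset.filter fun ρ => l.Sublist ρ) ⊆ {l} := by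
      intro ρ hρ
      simp only [mem_filter, List.mem_toFinset, List.mem_permutations] at hρ
      exact mem_singleton.2 (hρ.2.eq_of_length (by rw [hρ.1.length_eq, h]; rfl)).symm
    have h1 := card_le_card this
    rw [card_singleton] at h1
    rw [h]
    simpa using Nat.mul_le_mul_left l.length ! h1
  | succ j ih =>
    intro M hM h
    obtain ⟨a, haM, hal⟩ : ∃ a ∈ M, a ∉ l := by
      by_contra hc
      push Not at hc
      have := (hM.subperm hc).length_le
      omega
    have h1 := ih (M.erase a) (hM.erase a) (by rw [List.length_erase_of_mem haM]; omega)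
    have h2 : (M.permutations.toFinset.filter fun ρ => l.Sublist ρ).card ≤
        (range M.length ×ˢ
          ((M.erase a).permutations.toFinset.filter fun ρ => l.Sublist ρ)).card := by
      refine card_le_card_of_injOn (fun ρ => (ρ.idxOf a, ρ.erase a)) (fun ρ hρ => ?_)
        fun ρ hρ ρ' hρ' e => ?_
      · simp only [coe_filter, Set.mem_ofPred_eq, List.mem_toFinset, List.mem_permutations] at hρ
        simp only [coe_product, Set.mem_prod, mem_coe, mem_range, mem_filter, List.mem_toFinset,
          List.mem_permutations]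
        refine ⟨?_, hρ.1.erase a, ?_⟩
        · rw [← hρ.1.length_eq]
          exact List.idxOf_lt_length_of_mem (hρ.1.mem_iff.2 haM)
        · have := hρ.2.erase a
          rwa [List.erase_of_not_mem hal] at this
      · simp only [coe_filter, Set.mem_ofPred_eq, List.mem_toFinset,
          List.mem_permutations] at hρ hρ'
        obtain ⟨w, r, rfl, hw⟩ := List.eq_append_cons_of_mem (hρ.1.mem_iff.2 haM)
        obtain ⟨w', r', rfl, hw'⟩ := List.eq_append_cons_of_mem (hρ'.1.mem_iff.2 haM)
        simp only [Prod.mk.injEq, List.idxOf_append_of_notMem hw, List.idxOf_append_of_notMem hw',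
          List.erase_append_right _ hw, List.erase_append_right _ hw', List.erase_cons_head,
          List.idxOf_cons_self, add_zero] at e
        obtain ⟨e1, e2⟩ := List.append_inj e.2 e.1
        rw [e1, e2]
    rw [card_product, card_range] at h2
    rw [List.length_erase_of_mem haM] at h1
    calc _ ≤ l.length ! * (M.length * _) := Nat.mul_le_mul_left _ h2
      _ = M.length * (l.length ! * _) := by ring
      _ ≤ M.length * (M.length - 1)! := Nat.mul_le_mul_left _ h1
      _ = M.length ! := Nat.mul_factorial_pred (by omega)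

theorem card_sub (l M : List V) (hM : M.Nodup) :
    l.length ! * (M.permutations.toFinset.filter fun ρ => l.Sublist ρ).card ≤ M.length ! := by
  rcases le_or_gt l.length M.length with h | h
  · exact card_sub_aux l (M.length - l.length) M hM (by omega)
  · have : (M.permutations.toFinset.filter fun ρ => l.Sublist ρ) = ∅ := by
      rw [filter_eq_empty_iff]
      intro ρ hρ hs
      simp only [List.mem_toFinset, List.mem_permutations] at hρ
      have := hs.length_le
      rw [hρ.length_eq] at this
      omega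
    rw [this]
    simp

omit [DecidableEq V] in
theorem states_finite (L : List V) (P : St V → Prop) :
    {s : St V | s.word.Perm L ∧ P s}.Finite := by
  classical
  refine Set.Finite.of_injOn (f := fun s => (s.word, s.w.length))
    (t := ↑(L.permutations.toFinset ×ˢ range L.length)) (fun s hs => ?_)
    (fun s _ s' _ e => ?_) (finite_toSet _)
  · simp only [coe_product, Set.mem_prod, mem_coe, mem_range, List.mem_toFinset,
      List.mem_permutations]
    refine ⟨hs.1, ?_⟩
    rw [← hs.1.length_eq]
    simp only [St.word, List.length_cons, List.length_append]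
    omega
  · simp only [Prod.mk.injEq] at e
    exact St.eq_of_length e.1 e.2

theorem main_count {α : Type} {R : V → V → Prop} (hR : ∀ v, ¬ R v v) {L : List V} (hL : L.Nodup)
    (hall : ∀ v, v ∈ L) (t : PT α) (τ : Bool) (p : α) (la : List α) (hla : la.length = t.size + 1)
    (H : Finset (α → V))
    (hH : ∀ v u l, (v :: (l ++ [u])).Nodup → Emb R t τ v l → ad R τ v u →
      ∃ f ∈ H, f p = v ∧ la.map f = l ++ [u])
    (E : Finset (V × V)) (hE : ∀ e ∈ E, ad R τ e.1 e.2) {q r : ℕ} (hq : q * L.length + r ≤ E.card)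
    (hn : 1 ≤ L.length) :
    (t.size + 1)! * (L.length * q.choose (t.size + 1) + r * q.choose t.size) ≤ H.card := by
  classical
  obtain ⟨X, hX⟩ : ∃ X : Finset (St V), ∀ s, s ∈ X ↔ s.word.Perm L ∧ ad R τ s.v s.u :=
    ⟨(states_finite L fun s => ad R τ s.v s.u).toFinset, fun s => by simp⟩
  have hQ : ∀ v, (L.erase v).permutations.toFinset.card = (L.length - 1)! := fun v => by
    rw [List.toFinset_card_of_nodup (List.nodup_permutations _ (hL.erase v)),
      List.length_permutations, List.length_erase_of_mem (hall v)]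
  have hrest : ∀ s ∈ X, (s.w ++ s.u :: s.r).Perm (L.erase s.v) := fun s hs =>
    (((hX s).1 hs).1.trans (List.perm_cons_erase (hall s.v))).cons_inv
  have h1 : E.card * (L.length - 1)! ≤ X.card := by
    have e1 : (E.sigma fun e => (L.erase e.1).permutations.toFinset).card =
        E.card * (L.length - 1)! := by
      rw [card_sigma, sum_congr rfl fun e _ => hQ e.1, sum_const, smul_eq_mul]
    rw [← e1]
    refine card_le_card_of_surjOn (fun s => ⟨(s.v, s.u), s.w ++ s.u :: s.r⟩) ?_
    rintro ⟨⟨v, u⟩, ρ⟩ h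
    simp only [coe_sigma, Set.mem_sigma_iff, mem_coe, List.mem_toFinset,
      List.mem_permutations] at h
    have hvu := hE _ h.1
    have hne : u ≠ v := by
      rintro rfl
      cases τ <;> exact hR _ hvu
    obtain ⟨w, z, rfl⟩ := List.append_of_mem
      (h.2.mem_iff.2 ((List.mem_erase_of_ne hne).2 (hall u)))
    exact ⟨⟨v, w, u, z⟩, (hX _).2 ⟨(h.2.cons v).trans (List.perm_cons_erase (hall v)).symm, hvu⟩,
      rfl⟩
  have h2 := major (R := R) hL q t τ X fun s hs => (hX s).1 hs
  have h3 : ∑ s ∈ X, cnt R t τ s.v s.w ≤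
      ∑ f ∈ H, ((L.erase (f p)).permutations.toFinset.filter
        fun ρ => (la.map f).Sublist ρ).card := by
    simp only [cnt]
    rw [← card_sigma, ← card_sigma]
    refine le_trans (card_le_card_of_injOn
      (fun x => (x.1.v, x.2 ++ [x.1.u], x.1.w ++ x.1.u :: x.1.r)) (fun x hx => ?_)
      fun x hx x' hx' e => ?_) (card_image_le (f := fun y => (y.1 p, la.map y.1, y.2)))
    · simp only [coe_sigma, Set.mem_sigma_iff, mem_coe, mem_EE] at hx
      obtain ⟨s, l⟩ := x
      have g1 := (hX s).1 hx.1
      have g2 : (l ++ [s.u]).Sublist (s.w ++ s.u :: s.r) :=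
        hx.2.1.append (List.singleton_sublist.2 List.mem_cons_self)
      obtain ⟨f, f1, f2, f3⟩ := hH s.v s.u l ((g1.1.nodup_iff.2 hL).sublist (g2.cons_cons _))
        hx.2.2 g1.2
      refine mem_coe.2 (mem_image.2 ⟨⟨f, s.w ++ s.u :: s.r⟩, ?_, ?_⟩)
      · simp only [mem_sigma, mem_filter, List.mem_toFinset, List.mem_permutations]
        rw [f2, f3]
        exact ⟨f1, hrest s hx.1, g2⟩
      · simp only [f2, f3]
    · simp only [coe_sigma, Set.mem_sigma_iff, mem_coe, mem_EE] at hx hx'
      obtain ⟨s, l⟩ := x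
      obtain ⟨s', l'⟩ := x'
      simp only [Prod.mk.injEq] at e
      obtain ⟨e1, e2⟩ := List.append_inj' e.2.1 rfl
      obtain rfl : s = s' := St.eq_of_u (((hX s).1 hx.1).1.nodup_iff.2 hL)
        (by rw [St.word, St.word, e.1, e.2.2]) (List.cons.inj e2).1
      obtain rfl : l = l' := e1
      rfl
  have h4 : (t.size + 1)! * ∑ f ∈ H, ((L.erase (f p)).permutations.toFinset.filter
        fun ρ => (la.map f).Sublist ρ).card ≤ H.card * (L.length - 1)! := by
    rw [mul_sum, ← smul_eq_mul H.card, ← sum_const]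
    refine sum_le_sum fun f _ => ?_
    have := card_sub (la.map f) (L.erase (f p)) (hL.erase _)
    rwa [List.length_map, hla, List.length_erase_of_mem (hall _)] at this
  have h5 := Phi_ge L.length ! q (r * (L.length - 1)!) t.size q le_rfl
  have hfac : L.length ! = L.length * (L.length - 1)! :=
    (Nat.mul_factorial_pred (by omega)).symm
  have h6 : q * L.length ! + r * (L.length - 1)! ≤ X.card := by
    refine le_trans (le_of_eq ?_) ((Nat.mul_le_mul_right _ hq).trans h1)
    rw [hfac]
    ring
  have h7 := (h5.trans (Phi_mono _ _ _ h6)).trans (h2.trans h3)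
  refine Nat.le_of_mul_le_mul_right (c := (L.length - 1)!) ?_ (factorial_pos _)
  refine le_trans (le_of_eq ?_) ((Nat.mul_le_mul_left _ h7).trans h4)
  rw [hfac]
  ring

end Pool.Agent.MP_94a669_co

end

section

/-! Sums over all words of a given length, and comparison on average over rearrangements. -/

namespace Pool.Agent.MP_94a669_co.G

open Finset

variable {V : Type}

/-- Sum over all ways of cutting the word in two. -/
def conv (J F : List V → ℕ) (w : List V) : ℕ :=
  ∑ j ∈ range (w.length + 1), J (w.take j) * F (w.drop j)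

/-- A function of the last letter and of the letters before it. -/
def lastE (I : List V → V → ℕ) (p : List V) : ℕ :=
  p.getLast?.elim 0 (I p.dropLast)

theorem lastE_nil (I : List V → V → ℕ) : lastE I [] = 0 := rfl

theorem lastE_concat (I : List V → V → ℕ) (a : List V) (z : V) : lastE I (a ++ [z]) = I a z := by
  simp [lastE]

variable [Fintype V]

/-- All words of length `n`. -/
noncomputable def words (V : Type) [Fintype V] (n : ℕ) : Finset (List V) :=
  (List.finite_length_eq V n).toFinset

theorem mem_words {n : ℕ} {w : List V} : w ∈ words V n ↔ w.length = n := by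
  simp [words]

theorem sum_words_add (i j : ℕ) (H : List V → ℕ) :
    ∑ w ∈ words V (i + j), H w = ∑ a ∈ words V i, ∑ b ∈ words V j, H (a ++ b) := by
  rw [← sum_product']
  symm
  refine sum_nbij' (fun p => p.1 ++ p.2) (fun w => (w.take i, w.drop i)) ?_ ?_ ?_ ?_ ?_
  · intro p hp
    simp only [mem_product, mem_words] at hp ⊢
    rw [List.length_append, hp.1, hp.2]
  · intro w hw
    simp only [mem_product, mem_words] at hw ⊢
    simp [hw]
  · intro p hp
    simp only [mem_product, mem_words] at hp
    rw [← hp.1, List.take_left, List.drop_left]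
  · intro w _
    exact List.take_append_drop i w
  · intro p _
    rfl

theorem sum_words_succ (i : ℕ) (H : List V → ℕ) :
    ∑ w ∈ words V (i + 1), H w = ∑ x ∈ words V i ×ˢ (univ : Finset V), H (x.1 ++ [x.2]) := by
  rw [sum_words_add, sum_product]
  refine sum_congr rfl fun a _ => ?_
  symm
  refine sum_nbij (fun z => [z]) ?_ ?_ ?_ ?_
  · intro z _
    exact mem_words.2 rfl
  · intro z _ z' _ h
    exact (List.cons.inj h).1
  · intro b hb
    obtain ⟨z, rfl⟩ := List.length_eq_one_iff.1 (mem_words.1 hb)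
    exact ⟨z, by simp, rfl⟩
  · intro z _
    rfl

theorem sum_conv (n : ℕ) (G J F : List V → ℕ) :
    ∑ w ∈ words V n, G w * conv J F w =
      ∑ j ∈ range (n + 1), ∑ a ∈ words V j, ∑ b ∈ words V (n - j), G (a ++ b) * (J a * F b) := by
  have h1 : ∑ w ∈ words V n, G w * conv J F w =
      ∑ w ∈ words V n, ∑ j ∈ range (n + 1), G w * (J (w.take j) * F (w.drop j)) := by
    refine sum_congr rfl fun w hw => ?_
    rw [conv, mem_words.1 hw, mul_sum]
  rw [h1, sum_comm]
  refine sum_congr rfl fun j hj => ?_
  have h2 : n = j + (n - j) := by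
    have := mem_range.1 hj
    omega
  conv_lhs => rw [h2]
  rw [sum_words_add]
  refine sum_congr rfl fun a ha => sum_congr rfl fun b _ => ?_
  rw [← mem_words.1 ha, List.take_left, List.drop_left]

/-- `y` is at most `c` on average over the rearrangements of each word without repetition. -/
def Le (y c : List V → ℕ) : Prop :=
  ∀ (n : ℕ) (G : List V → ℕ), (∀ w w', w.Perm w' → G w = G w') → (∀ w, ¬ w.Nodup → G w = 0) →
    ∑ w ∈ words V n, G w * y w ≤ ∑ w ∈ words V n, G w * c w

theorem Le.trans {x y z : List V → ℕ} (h : Le x y) (h' : Le y z) : Le x z :=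
  fun n G g1 g2 => (h n G g1 g2).trans (h' n G g1 g2)

theorem Le.of_le {y c : List V → ℕ} (h : ∀ w, w.Nodup → y w ≤ c w) : Le y c := by
  intro n G _ g2
  refine sum_le_sum fun w _ => ?_
  by_cases hw : w.Nodup
  · exact Nat.mul_le_mul_left _ (h w hw)
  · simp [g2 w hw]

theorem Le.conv_right {F F' : List V → ℕ} (h : Le F F') (J : List V → ℕ) :
    Le (conv J F) (conv J F') := by
  intro n G g1 g2
  rw [sum_conv, sum_conv]
  refine sum_le_sum fun j _ => sum_le_sum fun a _ => ?_
  simp only [← mul_assoc]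
  refine h (n - j) (fun b => G (a ++ b) * J a) (fun w w' e => ?_) fun w hw => ?_
  · rw [g1 _ _ (e.append_left a)]
  · rw [g2 _ fun e => hw e.of_append_right, zero_mul]

theorem Le.conv_left {J J' : List V → ℕ} (h : Le J J') (F : List V → ℕ) :
    Le (conv J F) (conv J' F) := by
  intro n G g1 g2
  rw [sum_conv, sum_conv]
  refine sum_le_sum fun j _ => ?_
  rw [sum_comm, sum_comm (s := words V j)]
  refine sum_le_sum fun b _ => ?_
  simp only [← mul_assoc, mul_right_comm _ _ (F b)]
  refine h j (fun a => G (a ++ b) * F b) (fun w w' e => ?_) fun w hw => ?_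
  · rw [g1 _ _ (e.append_right b)]
  · rw [g2 _ fun e => hw e.of_append_left, zero_mul]

theorem sum_lastE_zero (G : List V → ℕ) (I : List V → V → ℕ) :
    ∑ w ∈ words V 0, G w * lastE I w = 0 := by
  refine sum_eq_zero fun w hw => ?_
  rw [List.length_eq_zero_iff.1 (mem_words.1 hw), lastE_nil, mul_zero]

theorem Le.lastE {I I' : List V → V → ℕ} (h : ∀ z, Le (fun a => I a z) fun a => I' a z) :
    Le (lastE I) (lastE I') := by
  intro n G g1 g2
  rcases n with _ | n
  · rw [sum_lastE_zero]
    exact Nat.zero_le _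
  rw [sum_words_succ, sum_words_succ, sum_product_right, sum_product_right]
  refine sum_le_sum fun z _ => ?_
  simp only [lastE_concat]
  refine h z n (fun a => G (a ++ [z])) (fun w w' e => g1 _ _ (e.append_right _)) fun w hw => ?_
  exact g2 _ fun e => hw e.of_append_left

open Classical in
theorem Le.move {Q : List V → V → Prop} {N : V → Prop} (ν : List V × V → List V × V)
    (h1 : ∀ x x', Q x.1 x.2 → Q x'.1 x'.2 → ν x = ν x' → x = x')
    (h2 : ∀ x, Q x.1 x.2 → N (ν x).2)
    (h3 : ∀ x, Q x.1 x.2 → (x.1 ++ [x.2]).Nodup → ((ν x).1 ++ [(ν x).2]).Perm (x.1 ++ [x.2]))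
    (y : V → List V → ℕ) :
    Le (G.lastE fun a z => if Q a z then y (ν (a, z)).2 (ν (a, z)).1 else 0)
      (G.lastE fun a z => if N z then y z a else 0) := by
  intro n G g1 g2
  rcases n with _ | n
  · rw [sum_lastE_zero]
    exact Nat.zero_le _
  rw [sum_words_succ, sum_words_succ]
  simp only [lastE_concat]
  set B := (words V n ×ˢ (univ : Finset V)).filter fun x => Q x.1 x.2 ∧ (x.1 ++ [x.2]).Nodup
    with hB
  have hinj : Set.InjOn ν B := fun x hx x' hx' e =>
    h1 x x' (mem_filter.1 hx).2.1 (mem_filter.1 hx').2.1 e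
  calc _ = ∑ x ∈ B, G ((ν x).1 ++ [(ν x).2]) * (if N (ν x).2 then y (ν x).2 (ν x).1 else 0) := by
        rw [hB, sum_filter]
        refine sum_congr rfl fun x _ => ?_
        by_cases q1 : Q x.1 x.2
        · by_cases q2 : (x.1 ++ [x.2]).Nodup
          · rw [if_pos q1, if_pos ⟨q1, q2⟩, if_pos (h2 x q1), g1 _ _ (h3 x q1 q2)]
          · rw [g2 _ q2, zero_mul, if_neg fun h => q2 h.2]
        · rw [if_neg q1, mul_zero, if_neg fun h => q1 h.1]
    _ = ∑ x ∈ B.image ν, G (x.1 ++ [x.2]) * (if N x.2 then y x.2 x.1 else 0) := by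
        rw [sum_image hinj]
    _ ≤ _ := by
        refine sum_le_sum_of_subset fun x hx => ?_
        obtain ⟨x', hx', rfl⟩ := mem_image.1 hx
        have q := mem_filter.1 hx'
        have q3 := (h3 x' q.2.1 q.2.2).length_eq
        have q4 := mem_words.1 (mem_product.1 q.1).1
        simp only [List.length_append, List.length_singleton] at q3
        exact mem_product.2 ⟨mem_words.2 (by omega), mem_univ _⟩

omit [Fintype V] in
theorem perm_length {L : List V} {s : St V} (h : s.word.Perm L) :
    s.w.length = L.length - 2 - s.r.length := by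
  have := h.length_eq
  simp only [St.word, List.length_cons, List.length_append] at this
  omega

/-- Summation over all marked permutations. -/
theorem sum_states_le {L : List V} (hL : L.Nodup) {M : V → V → Prop} {X : Finset (St V)}
    (hX : ∀ s, s ∈ X ↔ s.word.Perm L ∧ M s.v s.u) {y c : V → List V → ℕ}
    (h : ∀ v, Le (y v) (c v)) : ∑ s ∈ X, y s.v s.w ≤ ∑ s ∈ X, c s.v s.w := by
  classical
  have key : ∀ f : V → List V → ℕ, ∑ s ∈ X, f s.v s.w =
      ∑ k ∈ X.image (fun s => (s.v, s.u, s.r)), ∑ w ∈ words V (L.length - 2 - k.2.2.length),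
        (if (⟨k.1, w, k.2.1, k.2.2⟩ : St V) ∈ X then 1 else 0) * f k.1 w := by
    intro f
    rw [← sum_fiberwise_of_maps_to (g := fun s : St V => (s.v, s.u, s.r))
      (t := X.image fun s => (s.v, s.u, s.r)) fun s hs => mem_image_of_mem _ hs]
    refine sum_congr rfl fun k _ => ?_
    obtain ⟨v, u, r⟩ := k
    simp only [ite_mul, one_mul, zero_mul]
    rw [← sum_filter]
    refine sum_nbij' (fun s => s.w) (fun w => ⟨v, w, u, r⟩) ?_ ?_ ?_ ?_ ?_
    · rintro ⟨v', w, u', r'⟩ hs
      simp only [mem_filter, Prod.mk.injEq] at hs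
      obtain ⟨hs, rfl, rfl, rfl⟩ := hs
      exact mem_filter.2 ⟨mem_words.2 (perm_length ((hX _).1 hs).1), hs⟩
    · intro w hw
      exact mem_filter.2 ⟨(mem_filter.1 hw).2, rfl⟩
    · rintro ⟨v', w, u', r'⟩ hs
      simp only [mem_filter, Prod.mk.injEq] at hs
      obtain ⟨-, rfl, rfl, rfl⟩ := hs
      rfl
    · intro w _
      rfl
    · rintro ⟨v', w, u', r'⟩ hs
      simp only [mem_filter, Prod.mk.injEq] at hs
      obtain ⟨-, rfl, rfl, rfl⟩ := hs
      rfl
  rw [key y, key c]
  refine sum_le_sum fun k _ => h k.1 _ _ (fun w w' e => ?_) fun w hw => ?_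
  · have e' : (k.1 :: (w ++ k.2.1 :: k.2.2)).Perm (k.1 :: (w' ++ k.2.1 :: k.2.2)) :=
      (e.append_right _).cons _
    refine if_congr ?_ rfl rfl
    rw [hX, hX]
    exact and_congr_left' ⟨fun g => e'.symm.trans g, fun g => e'.trans g⟩
  · refine if_neg fun g => hw ?_
    have g' := ((hX _).1 g).1.nodup_iff.2 hL
    exact (List.nodup_cons.1 g').2.of_append_left

end Pool.Agent.MP_94a669_co.G

end

section

/-! Changing the set of marks from `M` to a set `N` that is at least as large. -/

namespace Pool.Agent.MP_94a669_co.G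

open Finset

variable {V : Type}

/-- `π` sends `M` into `N`, and every moved point of `M` leaves `M`. -/
def Good (M N : V → Prop) (π : Equiv.Perm V) : Prop :=
  (∀ x, M x → N (π x)) ∧ ∀ x, M x → M (π x) → π x = x

theorem exists_good [Finite V] {M N : V → Prop} (h : Nat.card {x // M x} ≤ Nat.card {x // N x}) :
    ∃ π, Good M N π := by
  classical
  have := Fintype.ofFinite V
  have h1 : (univ.filter M \ univ.filter N).card ≤ (univ.filter N \ univ.filter M).card := by
    have h0 : (univ.filter M).card ≤ (univ.filter N).card := by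
      rwa [Nat.card_eq_fintype_card, Nat.card_eq_fintype_card, Fintype.card_subtype,
        Fintype.card_subtype] at h
    have e1 := card_sdiff_add_card_inter (univ.filter M) (univ.filter N)
    have e2 := card_sdiff_add_card_inter (univ.filter N) (univ.filter M)
    rw [inter_comm] at e2
    omega
  obtain ⟨e⟩ : Nonempty (↥(univ.filter M \ univ.filter N) ↪ ↥(univ.filter N \ univ.filter M)) :=
    Function.Embedding.nonempty_of_card_le (by simpa only [Fintype.card_coe] using h1)
  have he : ∀ x, N (e x).1 ∧ ¬ M (e x).1 := fun x => by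
    have := mem_sdiff.1 (e x).2
    exact ⟨(mem_filter.1 this.1).2, fun g => this.2 (mem_filter.2 ⟨mem_univ _, g⟩)⟩
  obtain ⟨π, hπ⟩ := Equiv.Perm.exists_extending_pair (f := fun x : {x // M x} => x.1)
    (g := fun x : {x // M x} => if hx : N x.1 then x.1 else (e ⟨x.1, by simp [x.2, hx]⟩).1)
    Subtype.val_injective (by
      intro x x' hx
      by_cases h1 : N x.1 <;> by_cases h2 : N x'.1 <;> simp only [h1, h2, dif_pos, dif_neg,
        not_false_eq_true] at hx
      · exact Subtype.ext hx
      · exact absurd (hx ▸ x.2) (he _).2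
      · exact absurd (hx ▸ x'.2) (he _).2
      · exact Subtype.ext (congrArg (fun z => z.1) (e.injective (Subtype.ext hx))))
  refine ⟨π, fun x hx => ?_, fun x hx hx' => ?_⟩
  · rw [hπ ⟨x, hx⟩]
    by_cases h1 : N x
    · simp only [h1, dif_pos]
    · simp only [h1, dif_neg, not_false_eq_true]
      exact (he _).1
  · rw [hπ ⟨x, hx⟩] at hx' ⊢
    by_cases h1 : N x
    · simp only [h1, dif_pos]
    · simp only [h1, dif_neg, not_false_eq_true] at hx'
      exact absurd hx' (he _).2

open Classical in
/-- A good permutation whenever there is one. -/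
noncomputable def pick (M N : V → Prop) : Equiv.Perm V :=
  if h : ∃ π, Good M N π then h.choose else 1

theorem pick_good [Finite V] {M N : V → Prop} (h : Nat.card {x // M x} ≤ Nat.card {x // N x}) :
    Good M N (pick M N) := by
  rw [pick, dif_pos (exists_good h)]
  exact (exists_good h).choose_spec

/-- The intermediate marks, which depend on the letters already read. -/
def QM (M : V → Prop) (π : Equiv.Perm V) (w : List V) (z : V) : Prop :=
  (M z ∧ (π z = z ∨ π z ∈ w)) ∨ (¬ M z ∧ M (π.symm z) ∧ π.symm z ∉ w)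

open Classical in
/-- From intermediate marks to `N`, rearranging the letters read so far. -/
noncomputable def nu (M : V → Prop) (π : Equiv.Perm V) (x : List V × V) : List V × V :=
  if M x.2 then (x.1.map (Equiv.swap x.2 (π x.2)), π x.2) else x

variable {M N : V → Prop} {π : Equiv.Perm V}

theorem nu_inj (x x' : List V × V) (h : QM M π x.1 x.2) (h' : QM M π x'.1 x'.2)
    (e : nu M π x = nu M π x') : x = x' := by
  classical
  have mixed : ∀ x x' : List V × V, QM M π x.1 x.2 → QM M π x'.1 x'.2 → M x.2 → ¬ M x'.2 →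
      nu M π x = nu M π x' → False := by
    rintro ⟨w, z⟩ ⟨w', z'⟩ h h' m m' e
    simp only [nu, if_pos m, if_neg m', Prod.mk.injEq] at e
    obtain ⟨rfl, rfl⟩ := e
    have g := (h'.resolve_left fun g => m' g.1).2.2
    simp only [Equiv.symm_apply_apply] at g
    rcases (h.resolve_right fun g => g.1 m).2 with g1 | g1
    · exact m' (g1.symm ▸ m)
    · exact g (List.mem_map.2 ⟨_, g1, Equiv.swap_apply_right _ _⟩)
  by_cases m : M x.2 <;> by_cases m' : M x'.2
  · obtain ⟨w, z⟩ := x
    obtain ⟨w', z'⟩ := x'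
    simp only [nu, if_pos m, if_pos m', Prod.mk.injEq] at e
    obtain rfl : z = z' := π.injective e.2
    rw [List.map_injective_iff.2 (Equiv.injective _) e.1]
  · exact (mixed x x' h h' m m' e).elim
  · exact (mixed x' x h' h m' m e.symm).elim
  · simpa only [nu, if_neg m, if_neg m'] using e

theorem nu_mark (hg : Good M N π) (x : List V × V) (h : QM M π x.1 x.2) : N (nu M π x).2 := by
  by_cases m : M x.2
  · simp only [nu, if_pos m]
    exact hg.1 _ m
  · simp only [nu, if_neg m]
    have := hg.1 _ (h.resolve_left fun g => m g.1).2.1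
    rwa [Equiv.apply_symm_apply] at this

theorem map_swap_perm [DecidableEq V] {l : List V} (hl : l.Nodup) {a b : V} (ha : a ∈ l)
    (hb : b ∈ l) : (l.map (Equiv.swap a b)).Perm l := by
  refine (List.perm_ext_iff_of_nodup (hl.map (Equiv.injective _)) hl).2 fun x => ?_
  have key : ∀ y ∈ l, Equiv.swap a b y ∈ l := fun y hy => by
    rw [Equiv.swap_apply_def]
    split_ifs <;> assumption
  rw [List.mem_map]
  refine ⟨?_, fun hx => ⟨_, key x hx, Equiv.swap_apply_self _ _ _⟩⟩
  rintro ⟨y, hy, rfl⟩
  exact key y hy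

theorem nu_perm (x : List V × V) (h : QM M π x.1 x.2) (hn : (x.1 ++ [x.2]).Nodup) :
    ((nu M π x).1 ++ [(nu M π x).2]).Perm (x.1 ++ [x.2]) := by
  classical
  by_cases m : M x.2
  · simp only [nu, if_pos m]
    have g : π x.2 ∈ x.1 ++ [x.2] := by
      rcases (h.resolve_right fun g => g.1 m).2 with g | g <;> simp [g]
    have := map_swap_perm hn (a := x.2) (by simp) g
    simpa only [List.map_append, List.map_cons, List.map_nil, Equiv.swap_apply_left] using this
  · simp only [nu, if_neg m]
    exact List.Perm.refl _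

open Classical in
/-- From `M` to the intermediate marks, keeping the letters read so far. -/
noncomputable def mu (π : Equiv.Perm V) (s : St V) : St V :=
  if π s.u ∈ s.w then s else ⟨s.v, s.w, π s.u, s.r.map (Equiv.swap s.u (π s.u))⟩

theorem mu_v (s : St V) : (mu π s).v = s.v := by
  unfold mu
  split_ifs <;> rfl

theorem mu_w (s : St V) : (mu π s).w = s.w := by
  unfold mu
  split_ifs <;> rfl

theorem mu_inj (hg : Good M N π) {s s' : St V} (m : M s.u) (m' : M s'.u)
    (e : mu π s = mu π s') : s = s' := by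
  classical
  have mixed : ∀ s s' : St V, M s.u → M s'.u → π s.u ∈ s.w → π s'.u ∉ s'.w →
      mu π s = mu π s' → False := by
    rintro ⟨v, w, u, r⟩ ⟨v', w', u', r'⟩ m m' g g' e
    simp only [mu, if_pos g, if_neg g', St.mk.injEq] at e
    obtain ⟨rfl, rfl, rfl, -⟩ := e
    have := hg.2 _ m' m
    simp only at g g' this
    rw [this] at g
    exact g' g
  by_cases g : π s.u ∈ s.w <;> by_cases g' : π s'.u ∈ s'.w
  · simpa only [mu, if_pos g, if_pos g'] using e
  · exact (mixed s s' m m' g g' e).elim
  · exact (mixed s' s m' m g' g e.symm).elim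
  · obtain ⟨v, w, u, r⟩ := s
    obtain ⟨v', w', u', r'⟩ := s'
    simp only [mu, if_neg g, if_neg g', St.mk.injEq] at e
    obtain ⟨rfl, rfl, e3, e4⟩ := e
    obtain rfl : u = u' := π.injective e3
    rw [List.map_injective_iff.2 (Equiv.injective _) e4]

theorem u_notMem {s : St V} (hn : s.word.Nodup) : s.u ≠ s.v ∧ s.u ∉ s.w := by
  have h := List.nodup_cons.1 hn
  refine ⟨fun e => h.1 (by simp [e]), fun hm => ?_⟩
  exact (List.nodup_append.1 h.2).2.2 _ hm _ List.mem_cons_self rfl

theorem mu_mark (hg : Good M N π) {s : St V} (hn : s.word.Nodup) (m : M s.u) :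
    QM M π (mu π s).w (mu π s).u := by
  by_cases g : π s.u ∈ s.w
  · simp only [mu, if_pos g]
    exact Or.inl ⟨m, Or.inr g⟩
  · simp only [mu, if_neg g]
    by_cases m' : M (π s.u)
    · exact Or.inl ⟨m', Or.inl (by rw [hg.2 _ m m', hg.2 _ m m'])⟩
    · refine Or.inr ⟨m', ?_, ?_⟩ <;> rw [Equiv.symm_apply_apply]
      · exact m
      · exact (u_notMem hn).2

theorem mu_perm {s : St V} (hn : s.word.Nodup) (hall : ∀ x, x ∈ s.word) (hv : π s.u ≠ s.v) :
    (mu π s).word.Perm s.word := by
  classical
  by_cases g : π s.u ∈ s.w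
  · simp only [mu, if_pos g]
    exact List.Perm.refl _
  · have h1 := map_swap_perm hn (hall s.u) (hall (π s.u))
    have h2 := u_notMem hn
    have h3 : s.w.map (Equiv.swap s.u (π s.u)) = s.w := by
      conv_rhs => rw [← List.map_id s.w]
      refine List.map_congr_left fun x hx => Equiv.swap_apply_of_ne_of_ne ?_ ?_
      · rintro rfl
        exact h2.2 hx
      · rintro rfl
        exact g hx
    simp only [mu, if_neg g]
    simpa only [St.word, List.map_append, List.map_cons, h3, Equiv.swap_apply_left,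
      Equiv.swap_apply_of_ne_of_ne h2.1.symm hv.symm] using h1

end Pool.Agent.MP_94a669_co.G

end

section

/-! The majorisation invariant for arbitrary systems of marks. -/

namespace Pool.Agent.MP_94a669_co.G

open Finset Nat

variable {V : Type}

/-- Every set of `M`-marked permutations of `L` carries a large `y`-sum. -/
def Maj (L : List V) (K e : ℕ) (M : V → V → Prop) (y : V → List V → ℕ) : Prop :=
  ∀ S : Finset (St V), (∀ s ∈ S, s.word.Perm L ∧ M s.v s.u) →
    Phi L.length ! K e S.card ≤ ∑ s ∈ S, y s.v s.w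

/-- Partial sums of increments. -/
def acc (J : List V → ℕ) (w : List V) : ℕ := ∑ j ∈ range (w.length + 1), J (w.take j)

theorem acc_take (J : List V → ℕ) (w : List V) {j : ℕ} (hj : j ≤ w.length) :
    acc J (w.take j) = ∑ i ∈ range (j + 1), J (w.take i) := by
  rw [acc, List.length_take, min_eq_left hj]
  refine sum_congr rfl fun i hi => ?_
  rw [List.take_take, min_eq_left (Nat.lt_succ_iff.1 (mem_range.1 hi))]

/-- The first time at which `y` exceeds `x`. -/
noncomputable def cutG (y : List V → ℕ) (x : ℕ) (w : List V) : ℕ := sInf {j | x < y (w.take j)}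

theorem cutG_spec {y : List V → ℕ} {x : ℕ} {w : List V} (h : x < y w) :
    x < y (w.take (cutG y x w)) :=
  Nat.sInf_mem (s := {j | x < y (w.take j)}) ⟨w.length, by simpa using h⟩

theorem cutG_le {y : List V → ℕ} {x j : ℕ} {w : List V} (h : x < y (w.take j)) :
    cutG y x w ≤ j :=
  Nat.sInf_le (s := {j | x < y (w.take j)}) h

theorem shiftG_aux {y : V → List V → ℕ} {x : ℕ} {s s' : St V} (h : x < y s.v s.w)
    (h' : x < y s'.v s'.w)
    (e : s.shift (cutG (y s.v) x s.w) = s'.shift (cutG (y s'.v) x s'.w))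
    (hle : cutG (y s.v) x s.w ≤ cutG (y s'.v) x s'.w) : s = s' := by
  obtain ⟨v, w, u, r⟩ := s
  obtain ⟨v', w', u', r'⟩ := s'
  simp only [St.shift, St.mk.injEq] at e h h' hle
  obtain ⟨rfl, e2, rfl, e4⟩ := e
  have b1 : cutG (y v) x w ≤ w.length := cutG_le (by simpa using h)
  have b2 : cutG (y v) x w' ≤ w'.length := cutG_le (by simpa using h')
  have s1 := cutG_spec h
  generalize cutG (y v) x w = j at *
  have e5 := congrArg (List.take j) e4
  rw [List.take_append_of_le_length (by simp [b1]), List.take_append_of_le_length (by simp; omega),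
    List.take_take, List.take_take, min_self, min_eq_left hle] at e5
  have b3 : cutG (y v) x w' ≤ j := cutG_le (e5 ▸ s1)
  have e6 : cutG (y v) x w' = j := le_antisymm b3 hle
  rw [e6] at e2 e4
  rw [e5] at e4
  have e7 := List.append_cancel_left e4
  have e8 : w = w' := by rw [← List.take_append_drop j w, e5, e2, List.take_append_drop]
  rw [e7, e8]

theorem shiftG_inj {y : V → List V → ℕ} {x : ℕ} {s s' : St V} (h : x < y s.v s.w)
    (h' : x < y s'.v s'.w)
    (e : s.shift (cutG (y s.v) x s.w) = s'.shift (cutG (y s'.v) x s'.w)) : s = s' := by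
  rcases le_total (cutG (y s.v) x s.w) (cutG (y s'.v) x s'.w) with hle | hle
  · exact shiftG_aux h h' e hle
  · exact (shiftG_aux h' h e.symm hle).symm

theorem sum_cut (J F : List V → ℕ) (w : List V) :
    ∑ x ∈ range (acc J w), F (w.drop (cutG (acc J) x w)) = conv J F w := by
  have key : ∀ n ≤ w.length + 1,
      ∑ x ∈ range (∑ j ∈ range n, J (w.take j)), F (w.drop (cutG (acc J) x w)) =
        ∑ j ∈ range n, J (w.take j) * F (w.drop j) := by
    intro n
    induction n with
    | zero => simp
    | succ n ih =>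
      intro hn
      rw [sum_range_succ (fun j => J (w.take j)), sum_range_add, ih (by omega),
        sum_range_succ (fun j => J (w.take j) * F (w.drop j))]
      congr 1
      rw [← smul_eq_mul, ← card_range (J (w.take n)), ← sum_const, card_range]
      refine sum_congr rfl fun x hx => ?_
      have h1 : ∑ j ∈ range n, J (w.take j) + x < acc J (w.take n) := by
        rw [acc_take J w (by omega), sum_range_succ]
        exact Nat.add_lt_add_left (mem_range.1 hx) _
      have h2 := cutG_le h1
      have h3 : ∑ j ∈ range n, J (w.take j) + x <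
          acc J (w.take (cutG (acc J) (∑ j ∈ range n, J (w.take j) + x) w)) :=
        Nat.sInf_mem (s := {j | _ < acc J (w.take j)}) ⟨n, h1⟩
      rcases h2.lt_or_eq with h4 | h4
      · rw [acc_take J w (by omega)] at h3
        have h5 := sum_le_sum_of_subset (f := fun j => J (w.take j))
          (range_subset_range.2 (Nat.succ_le_of_lt h4))
        exact absurd (h3.trans_le h5) (by omega)
      · rw [h4]
  exact key _ le_rfl

variable {L : List V} {K : ℕ}

theorem maj_glue {e₁ e₂ : ℕ} {M : V → V → Prop} {J F : V → List V → ℕ}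
    (h₁ : Maj L K e₁ M fun v => acc (J v)) (h₂ : Maj L K e₂ M F) :
    Maj L K (e₁ + e₂) M fun v => conv (J v) (F v) := by
  classical
  intro S hS
  simp only [← sum_cut]
  obtain ⟨C, hC⟩ : ∃ C, ∀ z ∈ S, acc (J z.v) z.w ≤ C :=
    ⟨∑ z ∈ S, acc (J z.v) z.w, fun z hz =>
      single_le_sum (f := fun z : St V => acc (J z.v) z.w) (fun _ _ => Nat.zero_le _) hz⟩
  rw [sum_eq_sum_levels (fun z : St V => acc (J z.v) z.w) S C hC]
  have h1 := Phi_comp (N := L.length !) (K := K) (e₁ := e₁) (M := S.card) (range C)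
    (fun x => (S.filter fun z => x < acc (J z.v) z.w).card) (fun a => ?_) e₂ 0
  · refine le_trans h1 (sum_le_sum fun x _ => ?_)
    have hinj : Set.InjOn (fun z : St V => z.shift (cutG (acc (J z.v)) x z.w))
        (S.filter fun z => x < acc (J z.v) z.w) := fun z hz z' hz' e =>
      shiftG_inj (y := fun v => acc (J v)) (mem_filter.1 hz).2 (mem_filter.1 hz').2 e
    have h3 := h₂ ((S.filter fun z => x < acc (J z.v) z.w).image
      fun z => z.shift (cutG (acc (J z.v)) x z.w)) (by
      intro y hy
      obtain ⟨z, hz, rfl⟩ := mem_image.1 hy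
      have := hS z (mem_filter.1 hz).1
      exact ⟨(z.shift_perm _).trans this.1, this.2⟩)
    rw [Finset.card_image_of_injOn hinj, sum_image hinj] at h3
    exact h3
  · obtain ⟨S', g1, g2, g3⟩ := exists_trim (fun z : St V => acc (J z.v) z.w) S a
    have h2 := h₁ S' fun z hz => hS z (g1 hz)
    rw [g2] at h2
    refine h2.trans (le_of_eq ?_)
    have h3 := sum_eq_sum_levels (fun z : St V => acc (J z.v) z.w) S' C
      (fun z hz => hC z (g1 hz)) fun _ _ => 1
    simp only [sum_const, card_range, smul_eq_mul, mul_one] at h3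
    rw [h3]
    exact sum_congr rfl fun x _ => g3 x

open Classical in
theorem earlier_le (I : V → List V → V → ℕ) (S : Finset (St V)) (s : St V) :
    ∑ z ∈ S.filter (fun z => z.word = s.word ∧ z.w.length < s.w.length), I z.v z.w z.u ≤
      acc (lastE (I s.v)) s.w := by
  have hinj : Set.InjOn (fun z : St V => z.w.length + 1)
      (S.filter fun z => z.word = s.word ∧ z.w.length < s.w.length) := fun z hz z' hz' e =>
    St.eq_of_length ((mem_filter.1 hz).2.1.trans (mem_filter.1 hz').2.1.symm)
      (Nat.succ_injective e)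
  calc _ = ∑ z ∈ S.filter (fun z => z.word = s.word ∧ z.w.length < s.w.length),
        lastE (I s.v) (s.w.take (z.w.length + 1)) := by
        refine sum_congr rfl fun z hz => ?_
        obtain ⟨h1, h2⟩ := (mem_filter.1 hz).2
        have h3 : (z.w ++ [z.u]) ++ z.r = s.w ++ s.u :: s.r := by
          rw [List.append_assoc]
          exact (List.cons.inj h1).2
        have h4 := congrArg (List.take (z.w ++ [z.u]).length) h3
        rw [List.take_left, List.take_append_of_le_length (by simpa using h2),
          List.length_append, List.length_singleton] at h4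
        rw [← h4, lastE_concat, (List.cons.inj h1).1]
    _ = ∑ j ∈ (S.filter (fun z => z.word = s.word ∧ z.w.length < s.w.length)).image
          (fun z => z.w.length + 1), lastE (I s.v) (s.w.take j) := by
        rw [sum_image hinj]
    _ ≤ _ := by
        refine sum_le_sum_of_subset fun j hj => ?_
        obtain ⟨z, hz, rfl⟩ := mem_image.1 hj
        exact mem_range.2 (Nat.succ_lt_succ (mem_filter.1 hz).2.2)

theorem maj_rank {e : ℕ} (I : V → List V → V → ℕ) (S : Finset (St V))
    (hS : ∀ s ∈ S, s.word.Perm L)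
    (h : ∀ S' ⊆ S, Phi L.length ! K e S'.card ≤ ∑ s ∈ S', I s.v s.w s.u) :
    Phi L.length ! K (e + 1) S.card ≤ ∑ s ∈ S, acc (lastE (I s.v)) s.w := by
  classical
  refine le_trans ?_ (sum_le_sum fun s _ => earlier_le I S s)
  have h2 : ∑ s ∈ S, ∑ z ∈ S.filter (fun z => z.word = s.word ∧ z.w.length < s.w.length),
      I z.v z.w z.u = ∑ z ∈ S, ∑ _x ∈ range (rank S z), I z.v z.w z.u := by
    rw [sum_comm' (t' := S)
      (s' := fun z => S.filter fun s => z.word = s.word ∧ z.w.length < s.w.length)]
    · refine sum_congr rfl fun z _ => ?_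
      rw [sum_const, sum_const, card_range, rank]
    · intro s z
      simp only [mem_filter]
      tauto
  rw [h2, sum_eq_sum_levels (rank S) S (S.card + K)
    (fun s _ => (card_filter_le _ _).trans (Nat.le_add_right _ _))]
  refine le_trans ?_ (sum_le_sum_of_subset (range_subset_range.2 (Nat.le_add_left K S.card)))
  refine sum_le_sum fun x _ => ?_
  refine le_trans (Phi_mono _ _ _ ?_) (h _ (filter_subset _ _))
  have h4 := card_low_rank hS x
  have h5 := card_filter_add_card_filter_not (s := S) fun z => x < rank S z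
  omega

open Classical in
/-- The increments created by a new edge at the root. -/
noncomputable def inc (M N : V → Prop) (y : V → List V → ℕ) : List V → ℕ :=
  lastE fun a z => if QM M (pick M N) a z then
    y (nu M (pick M N) (a, z)).2 (nu M (pick M N) (a, z)).1 else 0

theorem maj_plant [Finite V] (hL : L.Nodup) (hall : ∀ x, x ∈ L) {e : ℕ} {M N N' : V → V → Prop}
    (hN : ∀ v, ¬ N v v) (hN' : ∀ v z, N v z → N' z v)
    (hc : ∀ v, Nat.card {x // M v x} ≤ Nat.card {x // N v x}) {y : V → List V → ℕ}
    (h : Maj L K e N' y) : Maj L K (e + 1) M fun v => acc (inc (M v) (N v) y) := by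
  classical
  intro S hS
  have hg := fun v => pick_good (hc v)
  have hn : ∀ s ∈ S, s.word.Nodup := fun s hs => (hS s hs).1.nodup_iff.2 hL
  have hinj : Set.InjOn (fun s : St V => mu (pick (M s.v) (N s.v)) s) S := by
    intro s hs s' hs' e
    have e1 : s.v = s'.v := by
      have := congrArg St.v e
      simpa only [mu_v] using this
    simp only at e
    rw [← e1] at e
    exact mu_inj (hg s.v) (hS s hs).2 (e1 ▸ (hS s' hs').2) e
  have hT : ∀ z ∈ S.image (fun s : St V => mu (pick (M s.v) (N s.v)) s),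
      z.word.Perm L ∧ QM (M z.v) (pick (M z.v) (N z.v)) z.w z.u := by
    intro z hz
    obtain ⟨s, hs, rfl⟩ := mem_image.1 hz
    refine ⟨(mu_perm (hn s hs) (fun x => (hS s hs).1.mem_iff.2 (hall x)) fun g => ?_).trans
      (hS s hs).1, ?_⟩
    · have := (hg s.v).1 _ (hS s hs).2
      rw [g] at this
      exact hN s.v this
    · rw [mu_v]
      exact mu_mark (hg s.v) (hn s hs) (hS s hs).2
  have h1 := maj_rank (K := K) (e := e)
    (fun v a z => if QM (M v) (pick (M v) (N v)) a z then
      y (nu (M v) (pick (M v) (N v)) (a, z)).2 (nu (M v) (pick (M v) (N v)) (a, z)).1 else 0)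
    _ (fun z hz => (hT z hz).1) fun S' hS' => ?_
  · rw [Finset.card_image_of_injOn hinj, sum_image hinj] at h1
    simpa only [mu_v, mu_w, inc] using h1
  · have hinj' : Set.InjOn (fun z : St V => (⟨(nu (M z.v) (pick (M z.v) (N z.v)) (z.w, z.u)).2,
        (nu (M z.v) (pick (M z.v) (N z.v)) (z.w, z.u)).1, z.v, z.r⟩ : St V)) S' := by
      rintro ⟨v, w, u, r⟩ hz ⟨v', w', u', r'⟩ hz' e
      simp only [St.mk.injEq] at e
      obtain ⟨e1, e2, rfl, rfl⟩ := e
      have := nu_inj (w, u) (w', u') (hT _ (hS' hz)).2 (hT _ (hS' hz')).2 (Prod.ext e2 e1)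
      simp only [Prod.mk.injEq] at this
      rw [this.1, this.2]
    have h3 := h (S'.image fun z : St V => (⟨(nu (M z.v) (pick (M z.v) (N z.v)) (z.w, z.u)).2,
        (nu (M z.v) (pick (M z.v) (N z.v)) (z.w, z.u)).1, z.v, z.r⟩ : St V)) (fun s hs => by
      obtain ⟨z, hz, rfl⟩ := mem_image.1 hs
      obtain ⟨g1, g2⟩ := hT z (hS' hz)
      refine ⟨?_, hN' _ _ (nu_mark (hg z.v) (z.w, z.u) g2)⟩
      have g3 : z.word = z.v :: ((z.w ++ [z.u]) ++ z.r) := by simp [St.word]
      have g4 : (z.w ++ [z.u]).Nodup :=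
        (List.nodup_cons.1 (g3 ▸ g1.nodup_iff.2 hL)).2.of_append_left
      have g5 := ((nu_perm (z.w, z.u) g2 g4).append_right z.r).cons z.v
      rw [← g3, List.append_assoc] at g5
      exact (St.swap_perm ⟨z.v, _, _, z.r⟩).trans (g5.trans g1))
    rw [Finset.card_image_of_injOn hinj', sum_image hinj'] at h3
    refine h3.trans (le_of_eq (sum_congr rfl fun z hz => ?_))
    rw [if_pos (hT z (hS' hz)).2]

end Pool.Agent.MP_94a669_co.G

end

section

/-! Plane trees with one relation per edge, virtual copies and true copies. -/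

namespace Pool.Agent.MP_94a669_co.G

open Finset Nat

/-- Labelled plane trees: first child with its subtree, then the rest (root label outside). -/
inductive BT (α : Type) : Type
  | leaf : BT α
  | node : α → BT α → BT α → BT α

variable {α V : Type}

/-- Number of edges. -/
def BT.size : BT α → ℕ
  | .leaf => 0
  | .node _ c r => c.size + 1 + r.size

/-- Non-root labels, children before parents. -/
def BT.verts : BT α → List α
  | .leaf => []
  | .node u c r => c.verts ++ u :: r.verts

/-- Parent-child pairs. -/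
def BT.Edge : BT α → α → α → α → Prop
  | .leaf, _, _, _ => False
  | .node u c r, a, x, y => (x = a ∧ y = u) ∨ c.Edge u x y ∨ r.Edge a x y

/-- `l` lists the images of the non-root vertices in a copy whose root `a` is sent to `v`. -/
def BT.Emb (R : α → α → V → V → Prop) : BT α → α → V → List V → Prop
  | .leaf, _, _, l => l = []
  | .node u c r, a, v, l =>
    ∃ l₁ z l₂, l = l₁ ++ z :: l₂ ∧ R a u v z ∧ c.Emb R u z l₁ ∧ r.Emb R a v l₂

variable {R : α → α → V → V → Prop}

theorem BT.Emb.length {t : BT α} : ∀ {a : α} {v : V} {l : List V}, t.Emb R a v l →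
    l.length = t.size := by
  induction t with
  | leaf => intro a v l h; rw [show l = [] from h]; rfl
  | node u c r ih₁ ih₂ =>
    rintro a v l ⟨l₁, z, l₂, rfl, -, h₁, h₂⟩
    rw [List.length_append, List.length_cons, ih₁ h₁, ih₂ h₂, BT.size]
    omega

open Classical in
/-- Ordered copies inside the word `w`. -/
noncomputable def copies (R : α → α → V → V → Prop) (t : BT α) (a : α) (v : V) (w : List V) :
    Finset (List V) :=
  w.sublists.toFinset.filter (t.Emb R a v)

theorem mem_copies {t : BT α} {a : α} {v : V} {w l : List V} :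
    l ∈ copies R t a v w ↔ l.Sublist w ∧ t.Emb R a v l := by
  simp [copies]

open Classical in
theorem copies_node (u : α) (c r : BT α) (a : α) (v : V) {w : List V} (hw : w.Nodup) :
    conv (lastE fun p z => if R a u v z then (copies R c u z p).card else 0)
      (fun b => (copies R r a v b).card) w ≤ (copies R (.node u c r) a v w).card := by
  let D : ℕ → Finset (List V) := fun j => (copies R (.node u c r) a v w).filter
    fun l => ∃ p z, w.take j = p ++ [z] ∧ l[c.size]? = some z
  have h1 : ∀ j, (lastE (fun p z => if R a u v z then (copies R c u z p).card else 0) (w.take j)) *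
      (copies R r a v (w.drop j)).card ≤ (D j).card := by
    intro j
    rcases (w.take j).eq_nil_or_concat' with h | ⟨p, z, h⟩
    · rw [h, lastE_nil, zero_mul]
      exact Nat.zero_le _
    rw [h, lastE_concat]
    split_ifs with hz
    · rw [← card_product]
      refine card_le_card_of_injOn (fun x => x.1 ++ z :: x.2) (fun x hx => ?_)
        fun x hx x' hx' e => ?_
      · simp only [coe_product, Set.mem_prod, mem_coe, mem_copies] at hx
        refine mem_coe.2 (mem_filter.2 ⟨mem_copies.2 ⟨?_, _, _, _, rfl, hz, hx.1.2, hx.2.2⟩,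
          p, z, h, ?_⟩)
        · have := (hx.1.1.append_right [z]).append hx.2.1
          rwa [← h, List.take_append_drop, List.append_assoc] at this
        · rw [← hx.1.2.length]
          simp
      · simp only [coe_product, Set.mem_prod, mem_coe, mem_copies] at hx hx'
        obtain ⟨e1, e2⟩ := List.append_inj e (hx.1.2.length.trans hx'.1.2.length.symm)
        exact Prod.ext e1 (List.cons.inj e2).2
    · rw [zero_mul]
      exact Nat.zero_le _
  have h2 : ∀ j ≤ w.length, ∀ p z, w.take j = p ++ [z] → w.idxOf z + 1 = j := by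
    intro j hj p z h
    have e1 : w = p ++ z :: w.drop j := by
      conv_lhs => rw [← List.take_append_drop j w, h, List.append_assoc]
      rfl
    have e2 : z ∉ p := fun hm =>
      (List.nodup_append.1 (e1 ▸ hw)).2.2 _ hm _ List.mem_cons_self rfl
    have e3 := congrArg List.length h
    rw [List.length_take, min_eq_left hj, List.length_append, List.length_singleton] at e3
    rw [e1, List.idxOf_append_of_notMem e2, List.idxOf_cons_self, e3]
  refine (sum_le_sum fun j _ => h1 j).trans ?_
  rw [← card_biUnion]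
  · exact card_le_card (biUnion_subset.2 fun j _ => filter_subset _ _)
  · intro j hj j' hj' hne
    refine disjoint_left.2 fun l hl hl' => hne ?_
    obtain ⟨p, z, g1, g2⟩ := (mem_filter.1 hl).2
    obtain ⟨p', z', g3, g4⟩ := (mem_filter.1 hl').2
    obtain rfl : z = z' := Option.some_injective _ (g2.symm.trans g4)
    rw [← h2 j (Nat.lt_succ_iff.1 (mem_range.1 hj)) p z g1,
      ← h2 j' (Nat.lt_succ_iff.1 (mem_range.1 hj')) p' z g3]

/-- Virtual copies of `t` rooted at `a`, for the marks given by the edge `a b`. -/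
noncomputable def Y (R : α → α → V → V → Prop) : BT α → α → α → V → List V → ℕ
  | .leaf, _, _, _ => fun _ => 1
  | .node u c r, a, b, v => conv (inc (R a b v) (R a u v) (Y R c u a)) (Y R r a b v)

/-- A symmetric system of relations with a common degree function at each vertex. -/
structure Sys (P : α → α → Prop) (R : α → α → V → V → Prop) : Prop where
  symm : ∀ a b, P a b → P b a
  flip : ∀ a b v z, R a b v z → R b a z v
  irr : ∀ a b, P a b → ∀ v, ¬ R a b v v
  deg : ∀ a b c, P a b → P a c → ∀ v, Nat.card {x // R a b v x} ≤ Nat.card {x // R a c v x}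

variable {P : α → α → Prop}

theorem maj_Y [Finite V] (hP : Sys P R) {L : List V} (hL : L.Nodup) (hall : ∀ x, x ∈ L) (K : ℕ)
    (t : BT α) : ∀ a b, P a b → (∀ x y, t.Edge a x y → P x y) →
      Maj L K t.size (R a b) (Y R t a b) := by
  induction t with
  | leaf =>
    intro a b _ _ S _
    show S.card ≤ _
    rw [card_eq_sum_ones]
    exact le_rfl
  | node u c r ih₁ ih₂ =>
    intro a b hab ht
    have hau : P a u := ht a u (Or.inl ⟨rfl, rfl⟩)
    exact maj_glue (maj_plant hL hall (hP.irr a u hau) (hP.flip a u) (hP.deg a b u hab hau)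
      (ih₁ u a (hP.symm a u hau) fun x y h => ht x y (Or.inr (Or.inl h))))
      (ih₂ a b hab fun x y h => ht x y (Or.inr (Or.inr h)))

theorem le_Y [Fintype V] (hP : Sys P R) (t : BT α) :
    ∀ a b, P a b → (∀ x y, t.Edge a x y → P x y) → ∀ v,
      Le (Y R t a b v) fun w => (copies R t a v w).card := by
  classical
  induction t with
  | leaf =>
    intro a b _ _ v
    exact Le.of_le fun w _ => card_pos.2 ⟨[], mem_copies.2 ⟨List.nil_sublist _, rfl⟩⟩
  | node u c r ih₁ ih₂ =>
    intro a b hab ht v
    have hau : P a u := ht a u (Or.inl ⟨rfl, rfl⟩)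
    have h1 := ih₁ u a (hP.symm a u hau) fun x y h => ht x y (Or.inr (Or.inl h))
    have h2 := ih₂ a b hab (fun x y h => ht x y (Or.inr (Or.inr h))) v
    have h3 := Le.move (Q := QM (R a b v) (pick (R a b v) (R a u v))) (N := R a u v)
      (nu (R a b v) (pick (R a b v) (R a u v))) nu_inj
      (nu_mark (pick_good (hP.deg a b u hab hau v))) nu_perm (Y R c u a)
    have h4 : Le (lastE fun p z => if R a u v z then Y R c u a z p else 0)
        (lastE fun p z => if R a u v z then (copies R c u z p).card else 0) := by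
      refine Le.lastE fun z => ?_
      by_cases hz : R a u v z
      · simpa only [if_pos hz] using h1 z
      · simp only [if_neg hz]
        exact Le.of_le fun _ _ => le_rfl
    exact ((h2.conv_right _).trans ((h3.trans h4).conv_left _)).trans
      (Le.of_le fun w hw => copies_node u c r a v hw)

theorem main_count [Fintype V] (hP : Sys P R) (t : BT α) {p z : α} (hpz : P p z)
    (ht : ∀ x y, t.Edge p x y → P x y) (la : List α) (hla : la.length = t.size + 1)
    (H : Finset (α → V))
    (hH : ∀ v u l, (v :: (l ++ [u])).Nodup → t.Emb R p v l → R p z v u →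
      ∃ f ∈ H, f p = v ∧ la.map f = l ++ [u])
    (E : Finset (V × V)) (hE : ∀ e ∈ E, R p z e.1 e.2) {q r : ℕ}
    (hq : q * Fintype.card V + r ≤ E.card) (hn : 1 ≤ Fintype.card V) :
    (t.size + 1)! * (Fintype.card V * q.choose (t.size + 1) + r * q.choose t.size) ≤ H.card := by
  classical
  obtain ⟨L, hL, hall, hlen⟩ : ∃ L : List V, L.Nodup ∧ (∀ v, v ∈ L) ∧ L.length = Fintype.card V :=
    ⟨univ.toList, nodup_toList _, by simp, by simp⟩
  rw [← hlen] at hq hn ⊢
  obtain ⟨X, hX⟩ : ∃ X : Finset (St V), ∀ s, s ∈ X ↔ s.word.Perm L ∧ R p z s.v s.u :=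
    ⟨(states_finite L fun s => R p z s.v s.u).toFinset, fun s => by simp⟩
  have hQ : ∀ v, (L.erase v).permutations.toFinset.card = (L.length - 1)! := fun v => by
    rw [List.toFinset_card_of_nodup (List.nodup_permutations _ (hL.erase v)),
      List.length_permutations, List.length_erase_of_mem (hall v)]
  have hrest : ∀ s ∈ X, (s.w ++ s.u :: s.r).Perm (L.erase s.v) := fun s hs =>
    (((hX s).1 hs).1.trans (List.perm_cons_erase (hall s.v))).cons_inv
  have h1 : E.card * (L.length - 1)! ≤ X.card := by
    have e1 : (E.sigma fun e => (L.erase e.1).permutations.toFinset).card =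
        E.card * (L.length - 1)! := by
      rw [card_sigma, sum_congr rfl fun e _ => hQ e.1, sum_const, smul_eq_mul]
    rw [← e1]
    refine card_le_card_of_surjOn (fun s => ⟨(s.v, s.u), s.w ++ s.u :: s.r⟩) ?_
    rintro ⟨⟨v, u⟩, ρ⟩ h
    simp only [coe_sigma, Set.mem_sigma_iff, mem_coe, List.mem_toFinset,
      List.mem_permutations] at h
    have hvu := hE _ h.1
    have hne : u ≠ v := by
      rintro rfl
      exact hP.irr p z hpz _ hvu
    obtain ⟨w, y, rfl⟩ := List.append_of_mem
      (h.2.mem_iff.2 ((List.mem_erase_of_ne hne).2 (hall u)))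
    exact ⟨⟨v, w, u, y⟩, (hX _).2 ⟨(h.2.cons v).trans (List.perm_cons_erase (hall v)).symm, hvu⟩,
      rfl⟩
  have h2 := (maj_Y hP hL hall q t p z hpz ht X fun s hs => (hX s).1 hs).trans
    (sum_states_le hL hX (le_Y hP t p z hpz ht))
  have h3 : ∑ s ∈ X, (copies R t p s.v s.w).card ≤
      ∑ f ∈ H, ((L.erase (f p)).permutations.toFinset.filter
        fun ρ => (la.map f).Sublist ρ).card := by
    rw [← card_sigma, ← card_sigma]
    refine le_trans (card_le_card_of_injOn
      (fun x => (x.1.v, x.2 ++ [x.1.u], x.1.w ++ x.1.u :: x.1.r)) (fun x hx => ?_)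
      fun x hx x' hx' e => ?_) (card_image_le (f := fun y => (y.1 p, la.map y.1, y.2)))
    · simp only [coe_sigma, Set.mem_sigma_iff, mem_coe, mem_copies] at hx
      obtain ⟨s, l⟩ := x
      have g1 := (hX s).1 hx.1
      have g2 : (l ++ [s.u]).Sublist (s.w ++ s.u :: s.r) :=
        hx.2.1.append (List.singleton_sublist.2 List.mem_cons_self)
      obtain ⟨f, f1, f2, f3⟩ := hH s.v s.u l ((g1.1.nodup_iff.2 hL).sublist (g2.cons_cons _))
        hx.2.2 g1.2
      refine mem_coe.2 (mem_image.2 ⟨⟨f, s.w ++ s.u :: s.r⟩, ?_, ?_⟩)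
      · simp only [mem_sigma, mem_filter, List.mem_toFinset, List.mem_permutations]
        rw [f2, f3]
        exact ⟨f1, hrest s hx.1, g2⟩
      · simp only [f2, f3]
    · simp only [coe_sigma, Set.mem_sigma_iff, mem_coe, mem_copies] at hx hx'
      obtain ⟨s, l⟩ := x
      obtain ⟨s', l'⟩ := x'
      simp only [Prod.mk.injEq] at e
      obtain ⟨e1, e2⟩ := List.append_inj' e.2.1 rfl
      obtain rfl : s = s' := St.eq_of_u (((hX s).1 hx.1).1.nodup_iff.2 hL)
        (by rw [St.word, St.word, e.1, e.2.2]) (List.cons.inj e2).1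
      obtain rfl : l = l' := e1
      rfl
  have h4 : (t.size + 1)! * ∑ f ∈ H, ((L.erase (f p)).permutations.toFinset.filter
        fun ρ => (la.map f).Sublist ρ).card ≤ H.card * (L.length - 1)! := by
    rw [mul_sum, ← smul_eq_mul H.card, ← sum_const]
    refine sum_le_sum fun f _ => ?_
    have := card_sub (la.map f) (L.erase (f p)) (hL.erase _)
    rwa [List.length_map, hla, List.length_erase_of_mem (hall _)] at this
  have h5 := Phi_ge L.length ! q (r * (L.length - 1)!) t.size q le_rfl
  have hfac : L.length ! = L.length * (L.length - 1)! :=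
    (Nat.mul_factorial_pred (by omega)).symm
  have h6 : q * L.length ! + r * (L.length - 1)! ≤ X.card := by
    refine le_trans (le_of_eq ?_) ((Nat.mul_le_mul_right _ hq).trans h1)
    rw [hfac]
    ring
  have h7 := (h5.trans (Phi_mono _ _ _ h6)).trans (h2.trans h3)
  refine Nat.le_of_mul_le_mul_right (c := (L.length - 1)!) ?_ (factorial_pos _)
  refine le_trans (le_of_eq ?_) ((Nat.mul_le_mul_left _ h7).trans h4)
  rw [hfac]
  ring

end Pool.Agent.MP_94a669_co.G

end

section

/-! Every finite tree is a labelled plane tree plus a leaf at the root; the count for systems. -/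

namespace Pool.Agent.MP_94a669_co.G

open Finset Nat

variable {α : Type}

theorem BT.length_verts (t : BT α) : t.verts.length = t.size := by
  induction t with
  | leaf => rfl
  | node u c r ih₁ ih₂ =>
    rw [BT.verts, BT.size, List.length_append, List.length_cons, ih₁, ih₂]
    omega

theorem BT.Edge.rel {V : Type} {R : α → α → V → V → Prop} {f : α → V} {x y : α} {t : BT α} :
    ∀ {a : α}, t.Emb R a (f a) (t.verts.map f) → t.Edge a x y → R x y (f x) (f y) := by
  induction t with
  | leaf => exact fun _ h => h.elim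
  | node u c r ih₁ ih₂ =>
    rintro a ⟨l₁, z, l₂, e, h1, h2, h3⟩ h
    rw [BT.verts, List.map_append, List.map_cons] at e
    obtain ⟨e1, e2⟩ := List.append_inj e (by rw [List.length_map, BT.length_verts, h2.length])
    obtain ⟨rfl, rfl⟩ := List.cons.inj e2
    subst e1
    rcases h with ⟨rfl, rfl⟩ | h | h
    · exact h1
    · exact ih₁ h2 h
    · exact ih₂ h3 h

theorem add_leaf {y : α} (z : α) (t : BT α) : ∀ {a : α}, y ∈ a :: t.verts →
    ∃ t' : BT α, t'.verts.Perm (z :: t.verts) ∧
      ∀ b c, t'.Edge a b c ↔ t.Edge a b c ∨ (b = y ∧ c = z) := by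
  have root : ∀ t : BT α, ∃ t' : BT α, t'.verts.Perm (z :: t.verts) ∧
      ∀ b c, t'.Edge y b c ↔ t.Edge y b c ∨ (b = y ∧ c = z) := fun t =>
    ⟨.node z .leaf t, List.Perm.refl _, fun b c => by simp only [BT.Edge]; tauto⟩
  induction t with
  | leaf =>
    intro a hy
    obtain rfl : y = a := by simpa [BT.verts] using hy
    exact root _
  | node u c r ih₁ ih₂ =>
    intro a hy
    rcases List.mem_cons.1 hy with rfl | hy
    · exact root _
    · by_cases h : y ∈ u :: c.verts
      · obtain ⟨c', g1, g2⟩ := ih₁ h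
        exact ⟨.node u c' r, g1.append_right _, fun b d => by simp only [BT.Edge, g2]; tauto⟩
      · obtain ⟨r', g1, g2⟩ := ih₂ (a := a) (by
          simp only [BT.verts, List.mem_append, List.mem_cons] at hy h ⊢
          tauto)
        refine ⟨.node u c r', ?_, fun b d => by simp only [BT.Edge, g2]; tauto⟩
        exact (((g1.cons u).trans (List.Perm.swap _ _ _)).append_left _).trans List.perm_middle

variable [DecidableEq α] {T : SimpleGraph α}

/-- `t` rooted at `a` describes the subgraph of `T` induced on `U`. -/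
def Rep (T : SimpleGraph α) (t : BT α) (a : α) (U : Finset α) : Prop :=
  (∀ x y, t.Edge a x y → T.Adj x y) ∧ (a :: t.verts).Nodup ∧ (∀ x, x ∈ a :: t.verts ↔ x ∈ U) ∧
    ∀ x ∈ U, ∀ y ∈ U, T.Adj x y → t.Edge a x y ∨ t.Edge a y x

theorem Rep.of_leaf {t : BT α} {a y z : α} {U : Finset α} (h : Rep T t a U) (hy : y ∈ U)
    (hz : z ∉ U) (hyz : T.Adj y z) (huniq : ∀ b ∈ U, T.Adj z b → b = y) :
    ∃ t', Rep T t' a (insert z U) := by
  obtain ⟨h1, h2, h3, h4⟩ := h
  obtain ⟨t', g1, g2⟩ := add_leaf z t ((h3 y).2 hy)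
  have hp : (a :: t'.verts).Perm (z :: a :: t.verts) := (g1.cons a).trans (List.Perm.swap _ _ _)
  refine ⟨t', fun b c h => ?_,
    hp.nodup_iff.2 (List.nodup_cons.2 ⟨fun h => hz ((h3 z).1 h), h2⟩), fun x => ?_, ?_⟩
  · rcases (g2 b c).1 h with h | ⟨rfl, rfl⟩
    · exact h1 b c h
    · exact hyz
  · rw [hp.mem_iff, List.mem_cons, h3, mem_insert]
  · intro b hb c hc hbc
    rcases mem_insert.1 hb with eb | hb' <;> rcases mem_insert.1 hc with ec | hc'
    · exact absurd (eb.trans ec.symm) hbc.ne
    · exact Or.inr ((g2 _ _).2 (Or.inr ⟨huniq c hc' (eb ▸ hbc), eb⟩))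
    · exact Or.inl ((g2 _ _).2 (Or.inr ⟨huniq b hb' (ec ▸ hbc.symm), ec⟩))
    · exact (h4 b hb' c hc' hbc).imp (fun h => (g2 _ _).2 (Or.inl h))
        fun h => (g2 _ _).2 (Or.inl h)

theorem grow (hT : T.IsAcyclic) {B : Finset α} (hB : Conn T B) {r : α} (hr : r ∈ B) (m : ℕ)
    (hm : m + 1 ≤ B.card) :
    ∃ A ⊆ B, r ∈ A ∧ A.card = m + 1 ∧ Conn T A ∧ ∃ t, Rep T t r A := by
  induction m with
  | zero =>
    refine ⟨{r}, by simpa, by simp, by simp, ?_, .leaf, fun _ _ h => h.elim, by simp [BT.verts],
      by simp [BT.verts], by simp⟩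
    intro a ha b hb
    rw [mem_singleton] at ha hb
    subst ha hb
    exact ⟨.nil, by simp⟩
  | succ m ih =>
    obtain ⟨A, h1, h2, h3, h4, t, ht⟩ := ih (by omega)
    obtain ⟨u, hu, l, hl, hlA, hadj⟩ := exists_step hB h1 h2 (by omega)
    exact ⟨insert l A, insert_subset hl h1, mem_insert_of_mem h2,
      by rw [card_insert_of_notMem hlA, h3], h4.insert hu hadj,
      ht.of_leaf hu hlA hadj (uniq_nbr hT h4 hlA hu hadj)⟩

theorem exists_enc [Fintype α] (hT : T.IsTree) (k : ℕ) (hk : Fintype.card α = k + 2) :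
    ∃ (t : BT α) (p z : α), t.size = k ∧ T.Adj p z ∧ (∀ x y, t.Edge p x y → T.Adj x y) ∧
      (p :: (t.verts ++ [z])).Nodup ∧ (∀ x, x ∈ p :: (t.verts ++ [z])) ∧
      ∀ x y, T.Adj x y → t.Edge p x y ∨ t.Edge p y x ∨ (x = p ∧ y = z) ∨ (x = z ∧ y = p) := by
  have hU : Conn T univ := fun a _ b _ => by
    obtain ⟨p⟩ := hT.connected.preconnected a b
    exact ⟨p, by simp⟩
  obtain ⟨r₀⟩ := hT.connected.nonempty
  obtain ⟨B, -, h2, h3, h4, -⟩ := grow hT.isAcyclic hU (mem_univ r₀) k (by simp [hk])
  obtain ⟨p, hp, z, -, hzB, hadj⟩ := exists_step hU (subset_univ B) h2 (by simp [hk, h3])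
  obtain ⟨B', g1, g2, g3, -, t, ht1, ht2, ht3, ht4⟩ := grow hT.isAcyclic h4 hp k h3.ge
  obtain rfl : B' = B := eq_of_subset_of_card_le g1 (by omega)
  have huniv : ∀ x, x = z ∨ x ∈ B' := fun x => by
    rw [← mem_insert, eq_univ_of_card (insert z B') (by rw [card_insert_of_notMem hzB, h3, hk])]
    exact mem_univ x
  have huniq := uniq_nbr hT.isAcyclic h4 hzB hp hadj
  have hperm : (p :: (t.verts ++ [z])).Perm (z :: p :: t.verts) :=
    List.perm_append_singleton z (p :: t.verts)
  refine ⟨t, p, z, ?_, hadj, ht1,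
    hperm.nodup_iff.2 (List.nodup_cons.2 ⟨fun h => hzB ((ht3 z).1 h), ht2⟩), fun x => ?_,
    fun x y hxy => ?_⟩
  · have e1 : (p :: t.verts).toFinset = B' := by
      ext x
      rw [List.mem_toFinset, ht3]
    have e2 := List.toFinset_card_of_nodup ht2
    rw [e1, h3, List.length_cons, BT.length_verts] at e2
    omega
  · rw [hperm.mem_iff, List.mem_cons, ht3]
    exact huniv x
  · rcases huniv x with ex | hx <;> rcases huniv y with ey | hy
    · exact absurd (ex.trans ey.symm) hxy.ne
    · exact Or.inr (Or.inr (Or.inr ⟨ex, huniq y hy (ex ▸ hxy)⟩))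
    · exact Or.inr (Or.inr (Or.inl ⟨huniq x hx (ey ▸ hxy.symm), ey⟩))
    · exact (ht4 x hx y hy hxy).imp_right Or.inl

/-- The count for a family of maps that are injective on edges and determined by each edge. -/
theorem family_count {k : ℕ} {T : SimpleGraph (Fin (k + 1 + 1))} (hT : T.IsTree) {V I : Type}
    [Fintype V] [Fintype I] (p : I → Fin (k + 1 + 1) → V)
    (h1 : ∀ a b, T.Adj a b → ∀ i, p i a ≠ p i b)
    (h2 : ∀ a b, T.Adj a b → ∀ i j, p i a = p j a → p i b = p j b → i = j)
    {q r : ℕ} (hr : r ≤ Fintype.card V) (hq : q * Fintype.card V + r ≤ Fintype.card I) :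
    (Fintype.card V - r) * q.descFactorial (k + 1) + r * (q + 1).descFactorial (k + 1) ≤
      Nat.card {f : Fin (k + 1 + 1) → V // Function.Injective f ∧
        ∀ a b, T.Adj a b → ∃ i, p i a = f a ∧ p i b = f b} := by
  classical
  rcases Nat.eq_zero_or_pos (Fintype.card V) with h0 | hn
  · obtain rfl : r = 0 := by omega
    simp [h0]
  have hdeg : ∀ a b, T.Adj a b → ∀ v,
      Nat.card {x // ∃ i, p i a = v ∧ p i b = x} = Nat.card {i // p i a = v} := fun a b hab v =>
    (Nat.card_eq_of_bijective (fun i : {i // p i a = v} =>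
      (⟨p i.1 b, i.1, i.2, rfl⟩ : {x // ∃ i, p i a = v ∧ p i b = x}))
      ⟨fun i j e => Subtype.ext (h2 a b hab _ _ (i.2.trans j.2.symm) (congrArg Subtype.val e)),
        fun ⟨_, i, g1, g2⟩ => ⟨⟨i, g1⟩, Subtype.ext g2⟩⟩).symm
  have hP : Sys T.Adj fun a b v u => ∃ i, p i a = v ∧ p i b = u :=
    ⟨fun _ _ h => h.symm, fun _ _ _ _ ⟨i, g1, g2⟩ => ⟨i, g2, g1⟩,
      fun a b h v ⟨i, g1, g2⟩ => h1 a b h i (g1.trans g2.symm),
      fun a b c hb hc v => by rw [hdeg a b hb, hdeg a c hc]⟩
  obtain ⟨t, a, z, e1, e2, e3, e4, e5, e6⟩ := exists_enc hT k (by simp)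
  have hE : (univ.image fun i => (p i a, p i z)).card = Fintype.card I :=
    Finset.card_image_of_injective _ fun i j e =>
      h2 a z e2 i j (congrArg Prod.fst e) (congrArg Prod.snd e)
  have h := main_count hP t e2 e3 (t.verts ++ [z]) (by simp [BT.length_verts])
    (univ.filter fun f : Fin (k + 1 + 1) → V => Function.Injective f ∧
      ∀ a b, T.Adj a b → ∃ i, p i a = f a ∧ p i b = f b)
    (fun v u l g1 g2 g3 => by
      obtain ⟨f, hf⟩ := exists_map v _ (v :: (l ++ [u])) e4
        (by simp [BT.length_verts, g2.length])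
      have hinj := List.inj_on_of_nodup_map (hf ▸ g1)
      rw [List.map_cons] at hf
      obtain ⟨f1, f2⟩ := List.cons.inj hf
      refine ⟨f, mem_filter.2 ⟨mem_univ _, fun x y h => hinj (e5 x) (e5 y) h, fun x y h => ?_⟩,
        f1, f2⟩
      rw [List.map_append] at f2
      obtain ⟨f3, f4⟩ := List.append_inj' f2 rfl
      obtain rfl : f z = u := (List.cons.inj f4).1
      subst f1 f3
      rcases e6 x y h with g | g | ⟨rfl, rfl⟩ | ⟨rfl, rfl⟩
      · exact g.rel g2
      · exact hP.flip _ _ _ _ (g.rel g2)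
      · exact g3
      · exact hP.flip _ _ _ _ g3)
    (univ.image fun i => (p i a, p i z))
    (fun e he => by
      obtain ⟨i, -, rfl⟩ := mem_image.1 he
      exact ⟨i, rfl, rfl⟩)
    (q := q) (r := r) (hE ▸ hq) hn
  rw [← Fintype.card_subtype, e1] at h
  rw [Nat.card_eq_fintype_card]
  refine le_trans (le_of_eq ?_) h
  obtain ⟨s, hs⟩ : ∃ s, Fintype.card V = s + r := ⟨_, (Nat.sub_add_cancel hr).symm⟩
  rw [hs, Nat.add_sub_cancel, descFactorial_eq_factorial_mul_choose,
    descFactorial_eq_factorial_mul_choose, Nat.choose_succ_succ]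
  ring

end Pool.Agent.MP_94a669_co.G

end

section

/-! The count for all oriented trees, with the imbalance term. -/

namespace Pool.Agent.MP_94a669_co.G

open Finset Nat

variable {V : Type} [Fintype V]

/-- A permutation of the arcs that continues all but `η` arcs. -/
theorem exists_next (D : Digraph V) : ∃ σ : Equiv.Perm {e : V × V // D.Adj e.1 e.2},
    Nat.card {e : {e : V × V // D.Adj e.1 e.2} // e.1.2 ≠ (σ e).1.1} ≤
      ∑ v, (Nat.card {u // D.Adj v u} - Nat.card {u // D.Adj u v}) := by
  classical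
  let d : V → ℕ := fun v => min (Nat.card {u // D.Adj v u}) (Nat.card {u // D.Adj u v})
  have ho : ∀ v, Nonempty (Fin (d v) ↪ {u // D.Adj v u}) := fun v =>
    Function.Embedding.nonempty_of_card_le (by
      rw [Fintype.card_fin, ← Nat.card_eq_fintype_card]
      exact min_le_left _ _)
  have hi : ∀ v, Nonempty (Fin (d v) ↪ {u // D.Adj u v}) := fun v =>
    Function.Embedding.nonempty_of_card_le (by
      rw [Fintype.card_fin, ← Nat.card_eq_fintype_card]
      exact min_le_right _ _)
  let f : (Σ v, Fin (d v)) → {e : V × V // D.Adj e.1 e.2} :=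
    fun x => ⟨(((hi x.1).some x.2).1, x.1), ((hi x.1).some x.2).2⟩
  let g : (Σ v, Fin (d v)) → {e : V × V // D.Adj e.1 e.2} :=
    fun x => ⟨(x.1, ((ho x.1).some x.2).1), ((ho x.1).some x.2).2⟩
  have hf : Function.Injective f := by
    rintro ⟨v, i⟩ ⟨v', i'⟩ e
    obtain rfl : v = v' := congrArg (fun x => x.1.2) e
    obtain rfl : i = i' := (hi v).some.injective (Subtype.ext (congrArg (fun x => x.1.1) e))
    rfl
  have hg : Function.Injective g := by
    rintro ⟨v, i⟩ ⟨v', i'⟩ e
    obtain rfl : v = v' := congrArg (fun x => x.1.1) e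
    obtain rfl : i = i' := (ho v).some.injective (Subtype.ext (congrArg (fun x => x.1.2) e))
    rfl
  obtain ⟨σ, hσ⟩ := Equiv.Perm.exists_extending_pair f g hf hg
  refine ⟨σ, ?_⟩
  have h1 : (univ.filter fun e => e.1.2 ≠ (σ e).1.1) ⊆ (univ.image f)ᶜ := by
    intro e he
    refine mem_compl.2 fun h => (mem_filter.1 he).2 ?_
    obtain ⟨x, -, rfl⟩ := mem_image.1 h
    rw [hσ]
  have h2 : Fintype.card {e : V × V // D.Adj e.1 e.2} = ∑ v, Nat.card {u // D.Adj v u} := by
    rw [← Nat.card_sigma, ← Nat.card_eq_fintype_card]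
    exact Nat.card_congr (Equiv.subtypeProdEquivSigmaSubtype D.Adj)
  have h3 := card_le_card h1
  rw [card_compl, Finset.card_image_of_injective _ hf, Finset.card_univ, Fintype.card_sigma,
    h2] at h3
  rw [Nat.card_eq_fintype_card, Fintype.card_subtype]
  refine h3.trans (Nat.sub_le_iff_le_add.2 (le_of_eq ?_))
  rw [← sum_add_distrib]
  refine sum_congr rfl fun v _ => ?_
  simp only [Fintype.card_fin, d]
  omega

/-- Many arcs start a walk along the orbit of a permutation. -/
theorem card_good {E : Type} [Fintype E] (σ : Equiv.Perm E) (B : E → Prop) (j : ℕ) :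
    Nat.card E ≤ Nat.card {e // ∀ i < j, ¬ B ((σ ^ i) e)} + j * Nat.card {e // B e} := by
  classical
  have h1 : (univ.filter fun e => ¬ ∀ i < j, ¬ B ((σ ^ i) e)) ⊆
      (range j).biUnion fun i => (univ.filter B).image (σ ^ i).symm := by
    intro e he
    have := (mem_filter.1 he).2
    push Not at this
    obtain ⟨i, hi, h⟩ := this
    exact mem_biUnion.2 ⟨i, mem_range.2 hi,
      mem_image.2 ⟨_, mem_filter.2 ⟨mem_univ _, h⟩, Equiv.symm_apply_apply _ _⟩⟩
  have h2 : (univ.filter fun e => ¬ ∀ i < j, ¬ B ((σ ^ i) e)).card ≤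
      j * (univ.filter fun e => B e).card := by
    have := (card_le_card h1).trans (card_biUnion_le.trans (sum_le_sum fun _ _ => card_image_le))
    rwa [sum_const, card_range, smul_eq_mul] at this
  have h3 := card_filter_add_card_filter_not (s := (univ : Finset E))
    fun e => ∀ i < j, ¬ B ((σ ^ i) e)
  simp only [Nat.card_eq_fintype_card, Fintype.card_subtype]
  rw [Finset.card_univ] at h3
  omega

theorem all_trees (k l : ℕ) (D : Digraph V) (hD : ∀ v, ¬ D.Adj v v)
    (A : Fin (k + 1) → Fin (k + 1) → Prop) (hT : (SimpleGraph.fromRel A).IsTree)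
    (lev : Fin (k + 1) → ℕ) (h1 : ∀ a, lev a ≤ l) (h2 : ∀ a b, A a b → lev b = lev a + 1)
    {q r : ℕ} (hr : r ≤ Fintype.card V)
    (hq : q * Fintype.card V + r ≤ Nat.card {p : V × V // D.Adj p.1 p.2} -
      (l - 1) * ∑ v, (Nat.card {u // D.Adj v u} - Nat.card {u // D.Adj u v})) :
    (Fintype.card V - r) * q.descFactorial k + r * (q + 1).descFactorial k ≤
      Nat.card {f : Fin (k + 1) → V // Function.Injective f ∧
        ∀ a b, A a b → D.Adj (f a) (f b)} := by
  classical
  rcases k with _ | k
  · simp only [descFactorial_zero, mul_one, Nat.sub_add_cancel hr]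
    rw [← Nat.card_eq_fintype_card]
    refine Nat.card_le_card_of_injective (fun v => ⟨fun _ => v, fun a b _ => ?_, fun a b h => ?_⟩)
      fun v w h => congrFun (congrArg Subtype.val h) 0
    · omega
    · obtain rfl : a = b := by omega
      have := h2 a a h
      omega
  obtain ⟨σ, hσ⟩ := exists_next D
  have h3 := card_good σ (fun e => e.1.2 ≠ (σ e).1.1) (l - 1)
  have h4 := Nat.mul_le_mul_left (l - 1) hσ
  let W : ℕ → {e : V × V // D.Adj e.1 e.2} → V := fun j e =>
    Nat.rec e.1.1 (fun i _ => ((σ ^ i) e).1.2) j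
  let F : Type := {e // ∀ i < l - 1, ¬ ((σ ^ i) e).1.2 ≠ (σ ((σ ^ i) e)).1.1}
  have hW : ∀ e : F, ∀ a b, A a b →
      (W (lev a) e.1, W (lev b) e.1) = ((σ ^ lev a) e.1).1 := by
    intro e a b hab
    have g1 := h1 b
    rw [h2 a b hab] at g1 ⊢
    refine Prod.ext ?_ rfl
    generalize lev a = j at g1
    rcases j with _ | j
    · rfl
    · have := not_not.1 (e.2 j (by omega))
      rw [_root_.pow_succ', Equiv.Perm.mul_apply, ← this]
  have hadj : ∀ (e : F) a b, A a b → D.Adj (W (lev a) e.1) (W (lev b) e.1) := fun e a b hab => by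
    have := ((σ ^ lev a) e.1).2
    rwa [← hW e a b hab] at this
  have hinj : ∀ a b, A a b → ∀ e e' : F, W (lev a) e.1 = W (lev a) e'.1 →
      W (lev b) e.1 = W (lev b) e'.1 → e = e' := fun a b hab e e' g1 g2 =>
    Subtype.ext ((σ ^ lev a).injective (Subtype.ext (by
      rw [← hW e a b hab, ← hW e' a b hab, g1, g2])))
  have h5 := family_count hT (q := q) (r := r) (fun (e : F) a => W (lev a) e.1)
    (fun a b hab e g => by
      rcases ((SimpleGraph.fromRel_adj A a b).1 hab).2 with h | h
      · have := hadj e a b h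
        rw [g] at this
        exact hD _ this
      · have := hadj e b a h
        rw [g] at this
        exact hD _ this)
    (fun a b hab e e' g1 g2 => by
      rcases ((SimpleGraph.fromRel_adj A a b).1 hab).2 with h | h
      · exact hinj a b h e e' g1 g2
      · exact hinj b a h e e' g2 g1)
    hr (by
      rw [← Nat.card_eq_fintype_card (α := F)]
      exact hq.trans (Nat.sub_le_iff_le_add.2 (h3.trans (Nat.add_le_add_left h4 _))))
  refine h5.trans (Nat.card_le_card_of_injective (fun f => ⟨f.1, f.2.1, fun a b hab => ?_⟩)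
    fun f f' e => Subtype.ext (Subtype.mk.inj e))
  have hne : a ≠ b := fun e => by
    have := h2 a b hab
    rw [e] at this
    omega
  obtain ⟨e, g1, g2⟩ := f.2.2 a b ((SimpleGraph.fromRel_adj A a b).2 ⟨hne, Or.inl hab⟩)
  rw [← g1, ← g2]
  exact hadj e a b hab

end Pool.Agent.MP_94a669_co.G

end

section

/-! Levels exist on every oriented tree; the antidirected and the Eulerian special cases. -/

namespace Pool.Agent.MP_94a669_co.G

open Finset Nat

theorem exists_emb_levels {α : Type} (A : α → α → Prop) (t : BT α) : ∀ (a : α) (x : ℕ),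
    (∀ b c, t.Edge a b c → A b c ∨ A c b) → t.size ≤ x →
      ∃ l, t.Emb (fun b c x y => (A b c ∧ y = x + 1) ∨ (A c b ∧ x = y + 1)) a x l := by
  induction t with
  | leaf => exact fun _ _ _ _ => ⟨[], rfl⟩
  | node u c r ih₁ ih₂ =>
    intro a x h hx
    rw [BT.size] at hx
    obtain ⟨l₂, h₂⟩ := ih₂ a x (fun b d g => h b d (Or.inr (Or.inr g))) (by omega)
    rcases h a u (Or.inl ⟨rfl, rfl⟩) with g | g
    · obtain ⟨l₁, h₁⟩ := ih₁ u (x + 1) (fun b d g => h b d (Or.inr (Or.inl g))) (by omega)
      exact ⟨_, l₁, x + 1, l₂, rfl, Or.inl ⟨g, rfl⟩, h₁, h₂⟩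
    · obtain ⟨l₁, h₁⟩ := ih₁ u (x - 1) (fun b d g => h b d (Or.inr (Or.inl g))) (by omega)
      exact ⟨_, l₁, x - 1, l₂, rfl, Or.inr ⟨g, by omega⟩, h₁, h₂⟩

/-- Every oriented tree has a level function. -/
theorem exists_levels {k : ℕ} (A : Fin (k + 1) → Fin (k + 1) → Prop)
    (hT : (SimpleGraph.fromRel A).IsTree) (hA : ∀ a b, A a b → ¬ A b a) :
    ∃ (l : ℕ) (lev : Fin (k + 1) → ℕ), (∀ a, lev a ≤ l) ∧ ∀ a b, A a b → lev b = lev a + 1 := by
  have hU : Conn (SimpleGraph.fromRel A) univ := fun a _ b _ => by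
    obtain ⟨p⟩ := hT.connected.preconnected a b
    exact ⟨p, by simp⟩
  obtain ⟨B, -, -, h3, -, t, g1, g2, g3, g4⟩ := grow hT.isAcyclic hU (mem_univ 0) k (by simp)
  obtain rfl : B = univ := eq_univ_of_card B (by simp [h3])
  obtain ⟨l, hl⟩ := exists_emb_levels A t 0 t.size
    (fun b c h => ((SimpleGraph.fromRel_adj A b c).1 (g1 b c h)).2) le_rfl
  obtain ⟨f, hf⟩ := exists_map 0 _ (t.size :: l) g2 (by simp [BT.length_verts, hl.length])
  rw [List.map_cons] at hf
  obtain ⟨f1, f2⟩ := List.cons.inj hf
  rw [← f1, ← f2] at hl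
  refine ⟨univ.sup f, f, fun a => le_sup (mem_univ a), fun a b h => ?_⟩
  have hne : a ≠ b := fun e => hA a b h (e ▸ h)
  rcases g4 a (mem_univ a) b (mem_univ b) ((SimpleGraph.fromRel_adj A a b).2 ⟨hne, Or.inl h⟩)
    with g | g
  · exact ((g.rel hl).resolve_right fun g => hA a b h g.1).2
  · exact ((g.rel hl).resolve_left fun g => hA a b h g.1).2

variable {V : Type} [Fintype V]

/-- Digraphs with equal in- and out-degrees: every oriented tree. -/
theorem eulerian_count (k : ℕ) (D : Digraph V) (hD : ∀ v, ¬ D.Adj v v)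
    (hE : ∀ v, Nat.card {u // D.Adj v u} = Nat.card {u // D.Adj u v})
    (A : Fin (k + 1) → Fin (k + 1) → Prop) (hT : (SimpleGraph.fromRel A).IsTree)
    (hA : ∀ a b, A a b → ¬ A b a) {q r : ℕ} (hr : r ≤ Fintype.card V)
    (hq : q * Fintype.card V + r ≤ Nat.card {p : V × V // D.Adj p.1 p.2}) :
    (Fintype.card V - r) * q.descFactorial k + r * (q + 1).descFactorial k ≤
      Nat.card {f : Fin (k + 1) → V // Function.Injective f ∧
        ∀ a b, A a b → D.Adj (f a) (f b)} := by
  obtain ⟨l, lev, h1, h2⟩ := exists_levels A hT hA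
  refine all_trees k l D hD A hT lev h1 h2 hr ?_
  simpa only [hE, Nat.sub_self, sum_const_zero, mul_zero, Nat.sub_zero] using hq

/-- Antidirected trees: every digraph. -/
theorem antidirected_count (k : ℕ) (D : Digraph V) (hD : ∀ v, ¬ D.Adj v v)
    (A : Fin (k + 1) → Fin (k + 1) → Prop) (hT : (SimpleGraph.fromRel A).IsTree)
    (hA : ∀ a b c, A a b → ¬ A b c) {q r : ℕ} (hr : r ≤ Fintype.card V)
    (hq : q * Fintype.card V + r ≤ Nat.card {p : V × V // D.Adj p.1 p.2}) :
    (Fintype.card V - r) * q.descFactorial k + r * (q + 1).descFactorial k ≤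
      Nat.card {f : Fin (k + 1) → V // Function.Injective f ∧
        ∀ a b, A a b → D.Adj (f a) (f b)} := by
  classical
  refine all_trees k 1 D hD A hT (fun a => if ∃ c, A c a then 1 else 0)
    (fun a => by split_ifs <;> omega) (fun a b h => ?_) hr (by simpa using hq)
  rw [if_pos ⟨a, h⟩, if_neg fun ⟨c, hc⟩ => hA c a b hc h]

end Pool.Agent.MP_94a669_co.G

end
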